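import Mathlib

/-!
# Radial integrals on four-dimensional Euclidean space
-/

set_option autoImplicit false

namespace Pool.Agent.Lib.MP_65cb00_an

open MeasureTheory Set ENNReal Measure

/-- four-dimensional Euclidean space -/
abbrev E4 : Type := EuclideanSpace ℝ (Fin 4)

lemma finrank_E4 : Module.finrank ℝ E4 = 4 := by simp

lemma volume_ball4 (x : E4) {r : ℝ} (hr : 0 ≤ r) :
    volume (Metric.ball x r) = ENNReal.ofReal (Real.pi ^ 2 / 2 * r ^ 4) := by
  have h := EuclideanSpace.volume_ball (Fin 4) x r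
  rw [h]
  simp only [Fintype.card_fin]
  have h2 : Real.Gamma ((4 : ℕ) / 2 + 1 : ℝ) = 2 := by
    have : ((4 : ℕ) / 2 + 1 : ℝ) = ((2 : ℕ) : ℝ) + 1 := by norm_num
    rw [this, Real.Gamma_nat_eq_factorial]
    norm_num
  rw [h2]
  have h3 : √Real.pi ^ 4 = Real.pi ^ 2 := by
    rw [show (4 : ℕ) = 2 * 2 by norm_num, pow_mul, Real.sq_sqrt Real.pi_pos.le]
  rw [h3, ← ENNReal.ofReal_pow hr, ← ENNReal.ofReal_mul (by positivity)]
  congr 1
  ring

lemma toSphere_univ : (volume : Measure E4).toSphere univ = ENNReal.ofReal (2 * Real.pi ^ 2) := by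
  rw [Measure.toSphere_apply_univ, volume_ball4 0 zero_le_one, finrank_E4]
  rw [show ((4 : ℕ) : ℝ≥0∞) = ENNReal.ofReal 4 by simp, ← ENNReal.ofReal_mul (by norm_num)]
  congr 1
  ring

/-- polar coordinates for radial functions -/
lemma lintegral_radial (f : ℝ → ℝ≥0∞) (hf : Measurable f) :
    ∫⁻ z : E4, f ‖z‖ = ENNReal.ofReal (2 * Real.pi ^ 2) *
      ∫⁻ r in Ioi (0 : ℝ), ENNReal.ofReal (r ^ 3) * f r := by
  have hmp := (volume : Measure E4).measurePreserving_homeomorphUnitSphereProd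
  have h1 : ∫⁻ z : E4, f ‖z‖ = ∫⁻ z : ({(0 : E4)}ᶜ : Set E4), f ‖(z : E4)‖ ∂(volume.comap Subtype.val) := by
    rw [lintegral_subtype_comap (measurableSet_singleton _).compl (fun z : E4 => f ‖z‖),
      restrict_compl_singleton]
  have h2 : ∫⁻ z : ({(0 : E4)}ᶜ : Set E4), f ‖(z : E4)‖ ∂(volume.comap Subtype.val)
      = ∫⁻ p, f p.2 ∂((volume : Measure E4).toSphere.prod
          (Measure.volumeIoiPow (Module.finrank ℝ E4 - 1))) := by
    rw [← hmp.lintegral_comp (f := fun p => f p.2)]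
    · simp
    · exact hf.comp (measurable_subtype_coe.comp measurable_snd)
  rw [h1, h2, lintegral_prod _ (by
    exact (hf.comp (measurable_subtype_coe.comp measurable_snd)).aemeasurable)]
  simp only [lintegral_const]
  rw [toSphere_univ, mul_comm]
  congr 1
  rw [finrank_E4]
  unfold Measure.volumeIoiPow
  rw [lintegral_withDensity_eq_lintegral_mul]
  · simp only [Pi.mul_apply]
    rw [lintegral_subtype_comap measurableSet_Ioi
      (fun r : ℝ => ENNReal.ofReal (r ^ (4 - 1)) * f r)]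
  · fun_prop
  · exact hf.comp measurable_subtype_coe

end Pool.Agent.Lib.MP_65cb00_an
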