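import Mathlib
import Pool.Agent.Lib.MP_65cb00_an.Radial

/-!
# Integrals of the Newton kernel and of the mollifier
-/

set_option autoImplicit false

namespace Pool.Agent.Lib.MP_65cb00_an

open MeasureTheory Set ENNReal Measure Filter Topology

/-- lower integral over a bounded interval of the `ofReal` of a nonnegative continuous function -/
lemma lintegral_Ioc_ofReal {g : ℝ → ℝ} {a b : ℝ} (hab : a ≤ b)
    (hg : IntervalIntegrable g volume a b) (hpos : ∀ s ∈ Ioc a b, 0 ≤ g s) :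
    ∫⁻ s in Ioc a b, ENNReal.ofReal (g s) = ENNReal.ofReal (∫ s in a..b, g s) := by
  rw [intervalIntegral.integral_of_le hab]
  rw [ofReal_integral_eq_lintegral_ofReal]
  · exact (intervalIntegrable_iff_integrableOn_Ioc_of_le hab).mp hg
  · exact (ae_restrict_iff' measurableSet_Ioc).mpr (Eventually.of_forall hpos)

/-- truncated-above part of the Newton kernel -/
lemma int_Nlt {r : ℝ} (hr : 0 < r) :
    ∫⁻ z : E4, ENNReal.ofReal (1 / (4 * Real.pi ^ 2 * ‖z‖ ^ 2) - 1 / (4 * Real.pi ^ 2 * r ^ 2))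
      = ENNReal.ofReal (r ^ 2 / 8) := by
  have hpi := Real.pi_pos
  rw [lintegral_radial (fun s => ENNReal.ofReal (1 / (4 * Real.pi ^ 2 * s ^ 2) -
    1 / (4 * Real.pi ^ 2 * r ^ 2))) (by fun_prop)]
  have h1 : ∫⁻ s in Ioi (0 : ℝ), ENNReal.ofReal (s ^ 3) *
      ENNReal.ofReal (1 / (4 * Real.pi ^ 2 * s ^ 2) - 1 / (4 * Real.pi ^ 2 * r ^ 2))
      = ∫⁻ s in Ioc 0 r, ENNReal.ofReal ((s - s ^ 3 / r ^ 2) / (4 * Real.pi ^ 2)) := by
    rw [← lintegral_indicator measurableSet_Ioi, ← lintegral_indicator measurableSet_Ioc]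
    apply lintegral_congr
    intro s
    by_cases hs : 0 < s
    · by_cases hsr : s ≤ r
      · rw [indicator_of_mem (show s ∈ Ioi (0 : ℝ) from hs),
          indicator_of_mem (show s ∈ Ioc 0 r from ⟨hs, hsr⟩),
          ← ENNReal.ofReal_mul (by positivity)]
        congr 1
        field_simp
      · rw [indicator_of_mem (show s ∈ Ioi (0 : ℝ) from hs),
          indicator_of_notMem (fun h => hsr h.2)]
        have : 1 / (4 * Real.pi ^ 2 * s ^ 2) - 1 / (4 * Real.pi ^ 2 * r ^ 2) ≤ 0 := by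
          rw [sub_nonpos]
          push Not at hsr
          gcongr
        rw [ENNReal.ofReal_of_nonpos this, mul_zero]
    · rw [indicator_of_notMem (show s ∉ Ioi (0 : ℝ) from hs),
        indicator_of_notMem (fun h => hs h.1)]
  rw [h1, lintegral_Ioc_ofReal hr.le]
  · rw [← ENNReal.ofReal_mul (by positivity)]
    congr 1
    have h2 : ∫ s in (0 : ℝ)..r, (s - s ^ 3 / r ^ 2) / (4 * Real.pi ^ 2)
        = (r ^ 2 / 2 - r ^ 4 / 4 / r ^ 2) / (4 * Real.pi ^ 2) := by
      rw [intervalIntegral.integral_div, intervalIntegral.integral_sub]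
      · rw [intervalIntegral.integral_div, integral_pow, integral_id]
        norm_num
      · exact (continuous_id).intervalIntegrable _ _
      · exact (by fun_prop : Continuous fun s : ℝ => s ^ 3 / r ^ 2).intervalIntegrable _ _
    rw [h2]
    field_simp
    ring
  · exact (by fun_prop : Continuous fun s : ℝ =>
      (s - s ^ 3 / r ^ 2) / (4 * Real.pi ^ 2)).intervalIntegrable _ _
  · intro s hs
    apply div_nonneg _ (by positivity)
    have : s ^ 3 / r ^ 2 = s * (s / r) ^ 2 := by field_simp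
    rw [this]
    have h1 : (s / r) ^ 2 ≤ 1 := by
      apply pow_le_one₀ (div_nonneg hs.1.le hr.le)
      rw [div_le_one hr]
      exact hs.2
    nlinarith [hs.1]

/-- square of the Newton kernel on an annulus -/
lemma int_Nsq {r R : ℝ} (hr : 0 < r) (hrR : r ≤ R) :
    ∫⁻ z : E4, (Ioc r R).indicator (fun s => ENNReal.ofReal (1 / (4 * Real.pi ^ 2 * s ^ 2)) ^ 2) ‖z‖
      = ENNReal.ofReal (1 / (8 * Real.pi ^ 2) * Real.log (R / r)) := by
  have hpi := Real.pi_pos
  rw [lintegral_radial _ ((by fun_prop : Measurable fun s : ℝ =>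
    ENNReal.ofReal (1 / (4 * Real.pi ^ 2 * s ^ 2)) ^ 2).indicator measurableSet_Ioc)]
  have h1 : ∫⁻ s in Ioi (0 : ℝ), ENNReal.ofReal (s ^ 3) *
      (Ioc r R).indicator (fun s => ENNReal.ofReal (1 / (4 * Real.pi ^ 2 * s ^ 2)) ^ 2) s
      = ∫⁻ s in Ioc r R, ENNReal.ofReal (1 / (16 * Real.pi ^ 4) * s⁻¹) := by
    rw [← lintegral_indicator measurableSet_Ioi, ← lintegral_indicator measurableSet_Ioc]
    apply lintegral_congr
    intro s
    by_cases hs : s ∈ Ioc r R
    · have hs0 : 0 < s := hr.trans hs.1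
      rw [indicator_of_mem (show s ∈ Ioi (0 : ℝ) from hs0), indicator_of_mem hs,
        indicator_of_mem hs, ← ENNReal.ofReal_pow (by positivity),
        ← ENNReal.ofReal_mul (by positivity)]
      congr 1
      field_simp
      norm_num
    · rw [indicator_of_notMem hs]
      by_cases hs0 : 0 < s
      · rw [indicator_of_mem (show s ∈ Ioi (0 : ℝ) from hs0), indicator_of_notMem hs, mul_zero]
      · rw [indicator_of_notMem (show s ∉ Ioi (0 : ℝ) from hs0)]
  rw [h1, lintegral_Ioc_ofReal hrR]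
  · rw [← ENNReal.ofReal_mul (by positivity)]
    congr 1
    rw [intervalIntegral.integral_const_mul, integral_inv_of_pos hr (hr.trans_le hrR)]
    field_simp
    ring
  · apply IntervalIntegrable.const_mul
    exact intervalIntegral.intervalIntegrable_inv (fun s hs => by
      rw [uIcc_of_le hrR] at hs
      exact (hr.trans_le hs.1).ne') continuousOn_id
  · intro s hs
    have : 0 < s := hr.trans hs.1
    positivity

/-- tail integral -/
lemma int_tail :
    ∫⁻ z : E4, (Ioi (1 : ℝ)).indicator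
      (fun s => ENNReal.ofReal (5 / (16 * Real.pi ^ 4) * (s ^ 6)⁻¹)) ‖z‖
      = ENNReal.ofReal (5 / (16 * Real.pi ^ 2)) := by
  have hpi := Real.pi_pos
  rw [lintegral_radial _ ((by fun_prop : Measurable fun s : ℝ =>
    ENNReal.ofReal (5 / (16 * Real.pi ^ 4) * (s ^ 6)⁻¹)).indicator measurableSet_Ioi)]
  have h1 : ∫⁻ s in Ioi (0 : ℝ), ENNReal.ofReal (s ^ 3) *
      (Ioi (1 : ℝ)).indicator (fun s => ENNReal.ofReal (5 / (16 * Real.pi ^ 4) * (s ^ 6)⁻¹)) s
      = ∫⁻ s in Ioi (1 : ℝ), ENNReal.ofReal (5 / (16 * Real.pi ^ 4) * (s ^ (-3 : ℝ))) := by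
    rw [← lintegral_indicator measurableSet_Ioi, ← lintegral_indicator measurableSet_Ioi]
    apply lintegral_congr
    intro s
    by_cases hs : s ∈ Ioi (1 : ℝ)
    · have hs0 : 0 < s := zero_lt_one.trans hs
      rw [indicator_of_mem (show s ∈ Ioi (0 : ℝ) from hs0), indicator_of_mem hs,
        indicator_of_mem hs, ← ENNReal.ofReal_mul (by positivity)]
      congr 1
      rw [Real.rpow_neg hs0.le, show (3 : ℝ) = ((3 : ℕ) : ℝ) by norm_num, Real.rpow_natCast]
      field_simp
    · rw [indicator_of_notMem hs]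
      by_cases hs0 : 0 < s
      · rw [indicator_of_mem (show s ∈ Ioi (0 : ℝ) from hs0), indicator_of_notMem hs, mul_zero]
      · rw [indicator_of_notMem (show s ∉ Ioi (0 : ℝ) from hs0)]
  rw [h1, ← ofReal_integral_eq_lintegral_ofReal]
  · rw [← ENNReal.ofReal_mul (by positivity)]
    congr 1
    rw [integral_const_mul, integral_Ioi_rpow_of_lt (by norm_num) zero_lt_one]
    norm_num
    field_simp
  · exact (integrableOn_Ioi_rpow_of_lt (by norm_num) zero_lt_one).const_mul _
  · refine (ae_restrict_iff' measurableSet_Ioi).mpr (Eventually.of_forall fun s hs => ?_)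
    have hs0 : 0 < s := zero_lt_one.trans hs
    positivity

/-- the mollifier -/
noncomputable def moll (z : E4) : ℝ := 2 / Real.pi ^ 2 / (‖z‖ ^ 2 + 1) ^ 3

lemma moll_nonneg (z : E4) : 0 ≤ moll z := by unfold moll; positivity

lemma moll_deriv (s : ℝ) : HasDerivAt (fun s : ℝ => s ^ 4 / (4 * (s ^ 2 + 1) ^ 2))
    (s ^ 3 / (s ^ 2 + 1) ^ 3) s := by
  have h1 : HasDerivAt (fun s : ℝ => s ^ 4) (4 * s ^ 3) s := by simpa using hasDerivAt_pow 4 s
  have h2 : HasDerivAt (fun s : ℝ => s ^ 2 + 1) (2 * s) s := by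
    simpa using (hasDerivAt_pow 2 s).add_const 1
  have h3 : HasDerivAt (fun s : ℝ => 4 * (s ^ 2 + 1) ^ 2) (4 * (2 * (s ^ 2 + 1) * (2 * s))) s := by
    have := (h2.pow 2).const_mul 4
    simpa using this
  have h4 := h1.div h3 (by positivity)
  have e : s ^ 3 / (s ^ 2 + 1) ^ 3 = (4 * s ^ 3 * (4 * (s ^ 2 + 1) ^ 2) -
      s ^ 4 * (4 * (2 * (s ^ 2 + 1) * (2 * s)))) / (4 * (s ^ 2 + 1) ^ 2) ^ 2 := by
    field_simp
    ring
  rw [e]
  exact h4

lemma moll_tendsto : Tendsto (fun s : ℝ => s ^ 4 / (4 * (s ^ 2 + 1) ^ 2)) atTop (𝓝 (1 / 4)) := by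
  have h1 : Tendsto (fun s : ℝ => (s ^ 2)⁻¹) atTop (𝓝 0) :=
    tendsto_inv_atTop_zero.comp (tendsto_pow_atTop (by norm_num))
  have h2 : Tendsto (fun s : ℝ => 1 / (4 * (1 + (s ^ 2)⁻¹) ^ 2)) atTop (𝓝 (1 / (4 * (1 + 0) ^ 2))) := by
    apply Filter.Tendsto.div tendsto_const_nhds
    · exact ((h1.const_add 1).pow 2).const_mul 4
    · norm_num
  have h3 : (1 / (4 * (1 + 0) ^ 2) : ℝ) = 1 / 4 := by norm_num
  rw [h3] at h2
  refine h2.congr' ?_
  filter_upwards [eventually_gt_atTop 0] with s hs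
  field_simp

lemma integral_moll_aux : ∫ s in Ioi (0 : ℝ), s ^ 3 / (s ^ 2 + 1) ^ 3 = 1 / 4 := by
  rw [integral_Ioi_of_hasDerivAt_of_nonneg' (fun s _ => moll_deriv s) _ moll_tendsto]
  · norm_num
  · intro s hs
    have : 0 < s := hs
    positivity

lemma integral_moll : ∫ z, moll z = 1 := by
  have h := integral_fun_norm_addHaar (volume : Measure E4)
    (fun s : ℝ => 2 / Real.pi ^ 2 / (s ^ 2 + 1) ^ 3)
  unfold moll
  rw [h, finrank_E4]
  have h1 : (volume : Measure E4).real (Metric.ball 0 1) = Real.pi ^ 2 / 2 := by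
    rw [Measure.real, volume_ball4 0 zero_le_one, ENNReal.toReal_ofReal (by positivity)]
    ring
  rw [h1]
  have h2 : ∫ y in Ioi (0 : ℝ), y ^ (4 - 1) • (2 / Real.pi ^ 2 / (y ^ 2 + 1) ^ 3)
      = 2 / Real.pi ^ 2 * (1 / 4) := by
    rw [← integral_moll_aux, ← integral_const_mul]
    apply integral_congr_ae
    refine Eventually.of_forall fun s => ?_
    simp only [smul_eq_mul]
    ring
  rw [h2]
  have := Real.pi_pos
  simp only [nsmul_eq_mul, smul_eq_mul]
  field_simp
  norm_num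

end Pool.Agent.Lib.MP_65cb00_an
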