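import Mathlib
import Pool.Agent.Lib.MP_65cb00_an.Kernel

/-!
# Pointwise bound of a test function by a potential
-/

set_option autoImplicit false

namespace Pool.Agent.Lib.MP_65cb00_an

open MeasureTheory Set ENNReal Measure Filter Topology

/-- the standard basis vectors -/
noncomputable abbrev bas (i : Fin 4) : E4 := EuclideanSpace.single i (1 : ℝ)

/-- the Laplacian, as in the frozen statement -/
noncomputable def lap (v : E4 → ℝ) (z : E4) : ℝ :=
  ∑ i : Fin 4, fderiv ℝ (fderiv ℝ v) z (bas i) (bas i)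

lemma second_deriv {v : E4 → ℝ} (hv : ContDiff ℝ 2 v) (i : Fin 4) (z : E4) :
    fderiv ℝ (fun y => fderiv ℝ v y (bas i)) z (bas i) = fderiv ℝ (fderiv ℝ v) z (bas i) (bas i) := by
  have h1 : DifferentiableAt ℝ (fderiv ℝ v) z :=
    (hv.fderiv_right (m := 1) (by norm_num)).differentiable (by norm_num) z
  rw [fderiv_clm_apply h1 (differentiableAt_const _)]
  simp

section Green

variable {w v : E4 → ℝ} (hw : ContDiff ℝ 2 w) (hv : ContDiff ℝ 2 v) (hvc : HasCompactSupport v)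

include hw hv hvc

lemma green1 (i : Fin 4) :
    ∫ z, w z * fderiv ℝ (fderiv ℝ v) z (bas i) (bas i)
      = - ∫ z, fderiv ℝ w z (bas i) * fderiv ℝ v z (bas i) := by
  have hdv : ContDiff ℝ 1 (fun y => fderiv ℝ v y (bas i)) :=
    (hv.fderiv_right (m := 1) (by norm_num)).clm_apply contDiff_const
  have hdw : ContDiff ℝ 1 (fun y => fderiv ℝ w y (bas i)) :=
    (hw.fderiv_right (m := 1) (by norm_num)).clm_apply contDiff_const
  have hddv : Continuous (fun z => fderiv ℝ (fun y => fderiv ℝ v y (bas i)) z (bas i)) :=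
    (hdv.continuous_fderiv (by norm_num)).clm_apply continuous_const
  have hdvc : HasCompactSupport (fun y => fderiv ℝ v y (bas i)) := hvc.fderiv_apply ℝ (bas i)
  have hddvc : HasCompactSupport (fun z => fderiv ℝ (fun y => fderiv ℝ v y (bas i)) z (bas i)) :=
    hdvc.fderiv_apply ℝ (bas i)
  have key := integral_mul_fderiv_eq_neg_fderiv_mul_of_integrable (μ := (volume : Measure E4))
    (f := w) (g := fun y => fderiv ℝ v y (bas i)) (v := bas i)
    ((hdw.continuous.mul hdv.continuous).integrable_of_hasCompactSupport hdvc.mul_left)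
    ((hw.continuous.mul hddv).integrable_of_hasCompactSupport hddvc.mul_left)
    ((hw.continuous.mul hdv.continuous).integrable_of_hasCompactSupport hdvc.mul_left)
    (fun x _ => hw.differentiable (by norm_num) x)
    (fun x _ => hdv.differentiable (by norm_num) x)
  rw [← key]
  apply integral_congr_ae
  refine Eventually.of_forall fun z => ?_
  simp only
  rw [second_deriv hv]

lemma green2 (i : Fin 4) :
    ∫ z, fderiv ℝ w z (bas i) * fderiv ℝ v z (bas i)
      = - ∫ z, fderiv ℝ (fderiv ℝ w) z (bas i) (bas i) * v z := by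
  have hdv : ContDiff ℝ 1 (fun y => fderiv ℝ v y (bas i)) :=
    (hv.fderiv_right (m := 1) (by norm_num)).clm_apply contDiff_const
  have hdw : ContDiff ℝ 1 (fun y => fderiv ℝ w y (bas i)) :=
    (hw.fderiv_right (m := 1) (by norm_num)).clm_apply contDiff_const
  have hddw : Continuous (fun z => fderiv ℝ (fun y => fderiv ℝ w y (bas i)) z (bas i)) :=
    (hdw.continuous_fderiv (by norm_num)).clm_apply continuous_const
  have hdvc : HasCompactSupport (fun y => fderiv ℝ v y (bas i)) := hvc.fderiv_apply ℝ (bas i)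
  have key := integral_mul_fderiv_eq_neg_fderiv_mul_of_integrable (μ := (volume : Measure E4))
    (f := fun y => fderiv ℝ w y (bas i)) (g := v) (v := bas i)
    ((hddw.mul hv.continuous).integrable_of_hasCompactSupport hvc.mul_left)
    ((hdw.continuous.mul hdv.continuous).integrable_of_hasCompactSupport hdvc.mul_left)
    ((hdw.continuous.mul hv.continuous).integrable_of_hasCompactSupport hvc.mul_left)
    (fun x _ => hdw.differentiable (by norm_num) x)
    (fun x _ => hv.differentiable (by norm_num) x)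
  rw [key]
  congr 1
  apply integral_congr_ae
  refine Eventually.of_forall fun z => ?_
  simp only
  rw [second_deriv hw]

lemma green_lap :
    ∫ z, w z * lap v z = - ∫ z, ∑ i : Fin 4, fderiv ℝ w z (bas i) * fderiv ℝ v z (bas i) := by
  have hd2 : ∀ i : Fin 4, Integrable (fun z => w z * fderiv ℝ (fderiv ℝ v) z (bas i) (bas i)) := by
    intro i
    have hddv : Continuous (fun z => fderiv ℝ (fderiv ℝ v) z (bas i) (bas i)) :=
      (((hv.fderiv_right (m := 1) (by norm_num)).continuous_fderiv (by norm_num)).clm_apply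
        continuous_const).clm_apply continuous_const
    have hdvc : HasCompactSupport (fun y => fderiv ℝ v y (bas i)) := hvc.fderiv_apply ℝ (bas i)
    have hddvc : HasCompactSupport (fun z => fderiv ℝ (fderiv ℝ v) z (bas i) (bas i)) := by
      have h := hdvc.fderiv_apply ℝ (bas i)
      have e : (fun z => fderiv ℝ (fun y => fderiv ℝ v y (bas i)) z (bas i))
          = fun z => fderiv ℝ (fderiv ℝ v) z (bas i) (bas i) := funext (second_deriv hv i)
      rwa [e] at h
    exact (hw.continuous.mul hddv).integrable_of_hasCompactSupport hddvc.mul_left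
  have hd1 : ∀ i : Fin 4, Integrable (fun z => fderiv ℝ w z (bas i) * fderiv ℝ v z (bas i)) := by
    intro i
    have hdvc : HasCompactSupport (fun y => fderiv ℝ v y (bas i)) := hvc.fderiv_apply ℝ (bas i)
    have hdv : ContDiff ℝ 1 (fun y => fderiv ℝ v y (bas i)) :=
      (hv.fderiv_right (m := 1) (by norm_num)).clm_apply contDiff_const
    have hdw : ContDiff ℝ 1 (fun y => fderiv ℝ w y (bas i)) :=
      (hw.fderiv_right (m := 1) (by norm_num)).clm_apply contDiff_const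
    exact (hdw.continuous.mul hdv.continuous).integrable_of_hasCompactSupport hdvc.mul_left
  unfold lap
  simp_rw [Finset.mul_sum]
  rw [integral_finsetSum _ (fun i _ => hd2 i), integral_finsetSum _ (fun i _ => hd1 i),
    ← Finset.sum_neg_distrib]
  exact Finset.sum_congr rfl fun i _ => green1 hw hv hvc i

lemma green_lap2 :
    ∫ z, w z * lap v z = ∫ z, lap w z * v z := by
  rw [green_lap hw hv hvc]
  have hd1 : ∀ i : Fin 4, Integrable (fun z => fderiv ℝ w z (bas i) * fderiv ℝ v z (bas i)) := by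
    intro i
    have hdvc : HasCompactSupport (fun y => fderiv ℝ v y (bas i)) := hvc.fderiv_apply ℝ (bas i)
    have hdv : ContDiff ℝ 1 (fun y => fderiv ℝ v y (bas i)) :=
      (hv.fderiv_right (m := 1) (by norm_num)).clm_apply contDiff_const
    have hdw : ContDiff ℝ 1 (fun y => fderiv ℝ w y (bas i)) :=
      (hw.fderiv_right (m := 1) (by norm_num)).clm_apply contDiff_const
    exact (hdw.continuous.mul hdv.continuous).integrable_of_hasCompactSupport hdvc.mul_left
  have hd2 : ∀ i : Fin 4, Integrable (fun z => fderiv ℝ (fderiv ℝ w) z (bas i) (bas i) * v z) := by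
    intro i
    have hddw : Continuous (fun z => fderiv ℝ (fderiv ℝ w) z (bas i) (bas i)) :=
      (((hw.fderiv_right (m := 1) (by norm_num)).continuous_fderiv (by norm_num)).clm_apply
        continuous_const).clm_apply continuous_const
    exact (hddw.mul hv.continuous).integrable_of_hasCompactSupport hvc.mul_left
  unfold lap
  simp_rw [Finset.sum_mul]
  rw [integral_finsetSum _ (fun i _ => hd2 i), integral_finsetSum _ (fun i _ => hd1 i),
    ← Finset.sum_neg_distrib]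
  apply Finset.sum_congr rfl
  intro i _
  rw [green2 hw hv hvc i, neg_neg]

end Green

/-- regularised Newton kernel -/
noncomputable def wk (ε : ℝ) (z : E4) : ℝ := (4 * Real.pi ^ 2)⁻¹ * (‖z‖ ^ 2 + ε)⁻¹

lemma wk_contDiff {ε : ℝ} (hε : 0 < ε) : ContDiff ℝ 2 (wk ε) := by
  unfold wk
  apply ContDiff.mul contDiff_const
  apply ContDiff.inv
  · exact (contDiff_norm_sq ℝ).add contDiff_const
  · intro z
    positivity

lemma hasFDerivAt_normsq (z : E4) :
    HasFDerivAt (fun y : E4 => ‖y‖ ^ 2) ((2 : ℝ) • innerSL ℝ z) z := by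
  have h := (hasStrictFDerivAt_norm_sq z).hasFDerivAt
  have e : (2 : ℝ) • innerSL ℝ z = (2 : ℕ) • innerSL ℝ z := by rw [two_smul, two_nsmul]
  rw [e]
  exact h

lemma comp_normsq {h : ℝ → ℝ} {h' : ℝ} (z : E4) (hh : HasDerivAt h h' (‖z‖ ^ 2)) :
    HasFDerivAt (fun y : E4 => h (‖y‖ ^ 2)) (h' • ((2 : ℝ) • innerSL ℝ z)) z :=
  HasDerivAt.comp_hasFDerivAt (h₂ := h) (f := fun y : E4 => ‖y‖ ^ 2) z hh (hasFDerivAt_normsq z)

lemma wk_hasFDerivAt {ε : ℝ} (hε : 0 < ε) (z : E4) :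
    HasFDerivAt (wk ε) ((-(4 * Real.pi ^ 2)⁻¹ * ((‖z‖ ^ 2 + ε) ^ 2)⁻¹) • ((2 : ℝ) • innerSL ℝ z)) z := by
  have h2 : HasDerivAt (fun t : ℝ => (4 * Real.pi ^ 2)⁻¹ * (t + ε)⁻¹)
      (-(4 * Real.pi ^ 2)⁻¹ * ((‖z‖ ^ 2 + ε) ^ 2)⁻¹) (‖z‖ ^ 2) := by
    have h3 : HasDerivAt (fun t : ℝ => t + ε) 1 (‖z‖ ^ 2) := (hasDerivAt_id _).add_const ε
    have h4 := (h3.fun_inv (by positivity)).const_mul (4 * Real.pi ^ 2)⁻¹
    have e : -(4 * Real.pi ^ 2)⁻¹ * ((‖z‖ ^ 2 + ε) ^ 2)⁻¹
        = (4 * Real.pi ^ 2)⁻¹ * (-1 / (‖z‖ ^ 2 + ε) ^ 2) := by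
      rw [neg_div, one_div]; ring
    rw [e]
    exact h4
  exact comp_normsq z h2

lemma wk_fderiv {ε : ℝ} (hε : 0 < ε) (z h : E4) :
    fderiv ℝ (wk ε) z h
      = -(4 * Real.pi ^ 2)⁻¹ * ((‖z‖ ^ 2 + ε) ^ 2)⁻¹ * (2 * inner ℝ z h) := by
  rw [(wk_hasFDerivAt hε z).fderiv]
  simp

lemma inner_bas (z : E4) (i : Fin 4) : inner ℝ z (bas i) = z i := by
  rw [EuclideanSpace.inner_single_right]
  simp

lemma lap_wk {ε : ℝ} (hε : 0 < ε) (z : E4) :
    lap (wk ε) z = - (2 / Real.pi ^ 2 * (ε / (‖z‖ ^ 2 + ε) ^ 3)) := by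
  have hpi := Real.pi_pos
  have hden : 0 < ‖z‖ ^ 2 + ε := by positivity
  have h1 : ∀ i : Fin 4, fderiv ℝ (fderiv ℝ (wk ε)) z (bas i) (bas i)
      = -(2 * Real.pi ^ 2)⁻¹ * (((‖z‖ ^ 2 + ε) ^ 2)⁻¹ - 4 * z i ^ 2 * ((‖z‖ ^ 2 + ε) ^ 3)⁻¹) := by
    intro i
    rw [← second_deriv (wk_contDiff hε) i z]
    have e1 : (fun y => fderiv ℝ (wk ε) y (bas i))
        = fun y : E4 => -(2 * Real.pi ^ 2)⁻¹ * (y i * ((‖y‖ ^ 2 + ε) ^ 2)⁻¹) := by
      funext y
      rw [wk_fderiv hε, inner_bas]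
      field_simp
      norm_num
    rw [e1]
    have h3 : HasDerivAt (fun t : ℝ => ((t + ε) ^ 2)⁻¹)
        (-2 * ((‖z‖ ^ 2 + ε) ^ 3)⁻¹) (‖z‖ ^ 2) := by
      have h3 : HasDerivAt (fun t : ℝ => t + ε) 1 (‖z‖ ^ 2) := (hasDerivAt_id _).add_const ε
      have h4 := (h3.fun_pow 2).fun_inv (by positivity)
      have e3 : -2 * ((‖z‖ ^ 2 + ε) ^ 3)⁻¹
          = -((2 : ℕ) * (‖z‖ ^ 2 + ε) ^ (2 - 1) * 1) / ((‖z‖ ^ 2 + ε) ^ 2) ^ 2 := by
        field_simp
        norm_num
      rw [e3]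
      exact h4
    have h5 : HasFDerivAt (fun y : E4 => ((‖y‖ ^ 2 + ε) ^ 2)⁻¹)
        ((-2 * ((‖z‖ ^ 2 + ε) ^ 3)⁻¹) • ((2 : ℝ) • innerSL ℝ z)) z := comp_normsq z h3
    have h6 : HasFDerivAt (fun y : E4 => y i) (EuclideanSpace.proj i : E4 →L[ℝ] ℝ) z :=
      (EuclideanSpace.proj i : E4 →L[ℝ] ℝ).hasFDerivAt
    have h7 := (h6.fun_mul h5).const_mul (-(2 * Real.pi ^ 2)⁻¹)
    rw [h7.fderiv]
    simp only [_root_.smul_apply, _root_.add_apply, smul_eq_mul,
      innerSL_apply_apply, inner_bas]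
    have e2 : (EuclideanSpace.proj i : E4 →L[ℝ] ℝ) (bas i) = 1 := by simp
    rw [e2]
    ring
  unfold lap
  rw [Finset.sum_congr rfl fun i _ => h1 i]
  have h8 : ∑ i : Fin 4, z i ^ 2 = ‖z‖ ^ 2 := by
    rw [EuclideanSpace.norm_sq_eq]
    simp
  have h9 : ∑ i : Fin 4, -(2 * Real.pi ^ 2)⁻¹ * (((‖z‖ ^ 2 + ε) ^ 2)⁻¹ - 4 * z i ^ 2 * ((‖z‖ ^ 2 + ε) ^ 3)⁻¹)
      = -(2 * Real.pi ^ 2)⁻¹ * (4 * ((‖z‖ ^ 2 + ε) ^ 2)⁻¹ - 4 * (∑ i : Fin 4, z i ^ 2) * ((‖z‖ ^ 2 + ε) ^ 3)⁻¹) := by
    simp only [Fin.sum_univ_four]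
    ring
  rw [h9, h8]
  field_simp
  ring

/-- part of the kernel acting on the Laplacian -/
noncomputable def ka (z : E4) : ℝ := (4 * Real.pi ^ 2)⁻¹ * (‖z‖ ^ 2 * (‖z‖ ^ 2 + 1))⁻¹

/-- part of the kernel acting on the gradient -/
noncomputable def kb (z : E4) : ℝ := (2 * Real.pi ^ 2)⁻¹ * (‖z‖ * ((‖z‖ ^ 2 + 1) ^ 2)⁻¹)

lemma ka_nonneg (z : E4) : 0 ≤ ka z := by unfold ka; positivity
lemma kb_nonneg (z : E4) : 0 ≤ kb z := by unfold kb; positivity

lemma wk_diff_le {ε : ℝ} (hε : 0 < ε) (hε1 : ε ≤ 1) {z : E4} (hz : z ≠ 0) :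
    |wk ε z - wk 1 z| ≤ ka z := by
  have hpi := Real.pi_pos
  have hρ : 0 < ‖z‖ ^ 2 := by positivity
  have e : wk ε z - wk 1 z = (4 * Real.pi ^ 2)⁻¹ * ((‖z‖ ^ 2 + ε)⁻¹ - (‖z‖ ^ 2 + 1)⁻¹) := by
    unfold wk; ring
  have h1 : (‖z‖ ^ 2 + 1)⁻¹ ≤ (‖z‖ ^ 2 + ε)⁻¹ := by gcongr
  have h2 : (‖z‖ ^ 2 + ε)⁻¹ ≤ (‖z‖ ^ 2)⁻¹ := by gcongr; linarith
  rw [e, abs_of_nonneg (mul_nonneg (by positivity) (by linarith))]
  unfold ka
  apply mul_le_mul_of_nonneg_left _ (by positivity)
  calc (‖z‖ ^ 2 + ε)⁻¹ - (‖z‖ ^ 2 + 1)⁻¹ ≤ (‖z‖ ^ 2)⁻¹ - (‖z‖ ^ 2 + 1)⁻¹ := by linarith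
    _ = (‖z‖ ^ 2 * (‖z‖ ^ 2 + 1))⁻¹ := by field_simp; ring

lemma gradient_le (v : E4 → ℝ) (z : E4) :
    |∑ i : Fin 4, fderiv ℝ (wk 1) z (bas i) * fderiv ℝ v z (bas i)| ≤ kb z * ‖fderiv ℝ v z‖ := by
  have hpi := Real.pi_pos
  have e1 : ∑ i : Fin 4, fderiv ℝ (wk 1) z (bas i) * fderiv ℝ v z (bas i)
      = -((2 * Real.pi ^ 2)⁻¹ * ((‖z‖ ^ 2 + 1) ^ 2)⁻¹) * fderiv ℝ v z z := by
    have e2 : fderiv ℝ v z z = ∑ i : Fin 4, z i * fderiv ℝ v z (bas i) := by
      have hz : (∑ i : Fin 4, z i • bas i) = z := by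
        ext j
        simp only [WithLp.ofLp_sum, WithLp.ofLp_smul, Finset.sum_apply, Pi.smul_apply, smul_eq_mul]
        rw [Finset.sum_eq_single j]
        · simp
        · intro b _ hb
          simp [hb.symm]
        · simp
      calc fderiv ℝ v z z = fderiv ℝ v z (∑ i : Fin 4, z i • bas i) := by rw [hz]
        _ = ∑ i : Fin 4, z i * fderiv ℝ v z (bas i) := by
          rw [_root_.map_sum]
          simp only [_root_.map_smul, smul_eq_mul]
    rw [e2, Finset.mul_sum]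
    apply Finset.sum_congr rfl
    intro i _
    rw [wk_fderiv zero_lt_one, inner_bas]
    field_simp
    ring
  rw [e1, abs_mul, abs_neg, abs_of_nonneg (by positivity)]
  unfold kb
  calc (2 * Real.pi ^ 2)⁻¹ * ((‖z‖ ^ 2 + 1) ^ 2)⁻¹ * |fderiv ℝ v z z|
      ≤ (2 * Real.pi ^ 2)⁻¹ * ((‖z‖ ^ 2 + 1) ^ 2)⁻¹ * (‖fderiv ℝ v z‖ * ‖z‖) := by
        apply mul_le_mul_of_nonneg_left _ (by positivity)
        exact (fderiv ℝ v z).le_opNorm z
    _ = _ := by ring

lemma moll_decay : Tendsto (fun x : E4 => ‖x‖ ^ Module.finrank ℝ E4 * moll x)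
    (Bornology.cobounded E4) (𝓝 0) := by
  have hpi := Real.pi_pos
  rw [finrank_E4]
  have h1 : Tendsto (fun x : E4 => 2 / Real.pi ^ 2 * (‖x‖ ^ 2)⁻¹) (Bornology.cobounded E4)
      (𝓝 (2 / Real.pi ^ 2 * 0)) := by
    apply Filter.Tendsto.const_mul
    apply tendsto_inv_atTop_zero.comp
    exact (tendsto_pow_atTop (by norm_num)).comp tendsto_norm_cobounded_atTop
  rw [mul_zero] at h1
  refine squeeze_zero' (Eventually.of_forall fun x => ?_) ?_ h1
  · have := moll_nonneg x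
    positivity
  · have h2 : ∀ᶠ x : E4 in Bornology.cobounded E4, 1 ≤ ‖x‖ :=
      tendsto_norm_cobounded_atTop.eventually_ge_atTop 1
    filter_upwards [h2] with x hx
    unfold moll
    have hx0 : 0 < ‖x‖ := by linarith
    have h3 : (‖x‖ ^ 2) ^ 3 ≤ (‖x‖ ^ 2 + 1) ^ 3 := by gcongr; linarith
    calc ‖x‖ ^ 4 * (2 / Real.pi ^ 2 / (‖x‖ ^ 2 + 1) ^ 3)
        ≤ ‖x‖ ^ 4 * (2 / Real.pi ^ 2 / (‖x‖ ^ 2) ^ 3) := by gcongr
      _ = 2 / Real.pi ^ 2 * (‖x‖ ^ 2)⁻¹ := by field_simp

lemma repr0 {v : E4 → ℝ} (hv : ContDiff ℝ 2 v) (hvc : HasCompactSupport v) :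
    ENNReal.ofReal |v 0| ≤
      ∫⁻ z, ENNReal.ofReal (ka z * |lap v z| + kb z * ‖fderiv ℝ v z‖) := by
  have hpi := Real.pi_pos
  have hlim := tendsto_integral_comp_smul_smul_of_integrable (μ := (volume : Measure E4))
    moll_nonneg integral_moll moll_decay
    (hv.continuous.integrable_of_hasCompactSupport hvc) hv.continuous.continuousAt
  have hlim2 := (ENNReal.continuous_ofReal.tendsto _).comp hlim.abs
  refine le_of_tendsto hlim2 ?_
  filter_upwards [eventually_ge_atTop (1 : ℝ)] with c hc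
  simp only [Function.comp_apply]
  have hc0 : 0 < c := by linarith
  set ε : ℝ := (c ^ 2)⁻¹ with hε
  have hε0 : 0 < ε := by positivity
  have hε1 : ε ≤ 1 := inv_le_one_of_one_le₀ (one_le_pow₀ hc)
  -- rewrite the integral
  have e1 : ∫ x, (c ^ Module.finrank ℝ E4 * moll (c • x)) • v x
      = ∫ z, (-(wk ε z - wk 1 z) * lap v z
          + ∑ i : Fin 4, fderiv ℝ (wk 1) z (bas i) * fderiv ℝ v z (bas i)) := by
    have e2 : ∫ x, (c ^ Module.finrank ℝ E4 * moll (c • x)) • v x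
        = - ∫ z, lap (wk ε) z * v z := by
      rw [← integral_neg]
      apply integral_congr_ae
      refine Eventually.of_forall fun z => ?_
      simp only
      rw [lap_wk hε0, finrank_E4]
      unfold moll
      rw [norm_smul, Real.norm_eq_abs, abs_of_pos hc0, hε, smul_eq_mul]
      field_simp
    rw [e2, ← green_lap2 (wk_contDiff hε0) hv hvc]
    have hlapc : Continuous (lap v) := by
      unfold lap
      apply continuous_finsetSum
      intro i _
      exact (((hv.fderiv_right (m := 1) (by norm_num)).continuous_fderiv (by norm_num)).clm_apply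
        continuous_const).clm_apply continuous_const
    have hlapcs : HasCompactSupport (lap v) := by
      apply HasCompactSupport.intro (K := tsupport v) hvc
      intro x hx
      unfold lap
      have h1 : fderiv ℝ (fderiv ℝ v) x = 0 := by
        have h2 := support_fderiv_subset ℝ (f := fderiv ℝ v)
        have h3 := support_fderiv_subset ℝ (f := v)
        by_contra hne
        have h4 : x ∈ Function.support (fderiv ℝ (fderiv ℝ v)) := hne
        have h5 : x ∈ tsupport (fderiv ℝ v) := h2 h4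
        have h6 : tsupport (fderiv ℝ v) ⊆ tsupport v :=
          closure_minimal h3 (isClosed_tsupport v)
        exact hx (h6 h5)
      simp [h1]
    have hi1 : Integrable (fun z => wk ε z * lap v z) :=
      ((wk_contDiff hε0).continuous.mul hlapc).integrable_of_hasCompactSupport hlapcs.mul_left
    have hi2 : Integrable (fun z => wk 1 z * lap v z) :=
      ((wk_contDiff zero_lt_one).continuous.mul hlapc).integrable_of_hasCompactSupport
        hlapcs.mul_left
    have hi3 : Integrable (fun z => ∑ i : Fin 4, fderiv ℝ (wk 1) z (bas i) * fderiv ℝ v z (bas i)) := by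
      apply integrable_finsetSum
      intro i _
      have hdvc : HasCompactSupport (fun y => fderiv ℝ v y (bas i)) := hvc.fderiv_apply ℝ (bas i)
      have hdv : ContDiff ℝ 1 (fun y => fderiv ℝ v y (bas i)) :=
        (hv.fderiv_right (m := 1) (by norm_num)).clm_apply contDiff_const
      have hdw : ContDiff ℝ 1 (fun y => fderiv ℝ (wk 1) y (bas i)) :=
        ((wk_contDiff zero_lt_one).fderiv_right (m := 1) (by norm_num)).clm_apply contDiff_const
      exact (hdw.continuous.mul hdv.continuous).integrable_of_hasCompactSupport hdvc.mul_left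
    have e3 := green_lap (wk_contDiff zero_lt_one) hv hvc
    have e4 : ∫ z, (-(wk ε z - wk 1 z) * lap v z
          + ∑ i : Fin 4, fderiv ℝ (wk 1) z (bas i) * fderiv ℝ v z (bas i))
        = ∫ z, ((wk 1 z * lap v z - wk ε z * lap v z)
          + ∑ i : Fin 4, fderiv ℝ (wk 1) z (bas i) * fderiv ℝ v z (bas i)) := by
      apply integral_congr_ae
      refine Eventually.of_forall fun z => ?_
      simp only
      ring
    have hi4 : Integrable (fun z => wk 1 z * lap v z - wk ε z * lap v z) := hi2.sub hi1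
    rw [e4, integral_add hi4 hi3, integral_sub hi2 hi1, e3]
    ring
  rw [e1]
  have e5 := enorm_integral_le_lintegral_enorm (μ := (volume : Measure E4))
    (fun z => (-(wk ε z - wk 1 z) * lap v z
          + ∑ i : Fin 4, fderiv ℝ (wk 1) z (bas i) * fderiv ℝ v z (bas i)))
  rw [← ofReal_norm, Real.norm_eq_abs] at e5
  refine e5.trans ?_
  apply lintegral_mono_ae
  have hne : ∀ᵐ z : E4, z ≠ 0 := by
    rw [ae_iff]
    simp
  filter_upwards [hne] with z hz
  rw [← ofReal_norm, Real.norm_eq_abs]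
  apply ENNReal.ofReal_le_ofReal
  refine (abs_add_le _ _).trans ?_
  apply add_le_add
  · rw [abs_mul, abs_neg]
    exact mul_le_mul_of_nonneg_right (wk_diff_le hε0 hε1 hz) (abs_nonneg _)
  · exact gradient_le v z

end Pool.Agent.Lib.MP_65cb00_an
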