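import Mathlib
import Pool.Agent.Lib.MP_65cb00_an.Repr

/-!
# Pointwise bound by a scalar potential; properties of the kernel
-/

set_option autoImplicit false

namespace Pool.Agent.Lib.MP_65cb00_an

open MeasureTheory Set ENNReal Measure Filter Topology

/-- the scalar kernel -/
noncomputable def kk (z : E4) : ℝ≥0∞ := ENNReal.ofReal (√(ka z ^ 2 + kb z ^ 2))

/-- the density -/
noncomputable def GG (u : E4 → ℝ) (y : E4) : ℝ≥0∞ :=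
  ENNReal.ofReal (√(lap u y ^ 2 + ‖fderiv ℝ u y‖ ^ 2))

lemma cs_two (a b c d : ℝ) : a * c + b * d ≤ √(a ^ 2 + b ^ 2) * √(c ^ 2 + d ^ 2) := by
  rw [← Real.sqrt_mul (by positivity)]
  apply Real.le_sqrt_of_sq_le
  nlinarith [sq_nonneg (a * d - b * c)]

lemma measurable_kk : Measurable kk := by
  unfold kk ka kb
  fun_prop

lemma kk_neg (z : E4) : kk (-z) = kk z := by
  unfold kk ka kb
  simp

lemma continuous_lap {u : E4 → ℝ} (hu : ContDiff ℝ 2 u) : Continuous (lap u) := by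
  unfold lap
  apply continuous_finsetSum
  intro i _
  exact (((hu.fderiv_right (m := 1) (by norm_num)).continuous_fderiv (by norm_num)).clm_apply
    continuous_const).clm_apply continuous_const

lemma measurable_GG {u : E4 → ℝ} (hu : ContDiff ℝ 2 u) : Measurable (GG u) := by
  have h1 := (continuous_lap hu).measurable
  have h2 : Continuous fun y => ‖fderiv ℝ u y‖ := (hu.continuous_fderiv (by norm_num)).norm
  have h3 := h2.measurable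
  unfold GG
  exact ((h1.pow_const 2).add (h3.pow_const 2)).sqrt.ennreal_ofReal

lemma repr {u : E4 → ℝ} (hu : ContDiff ℝ 2 u) (huc : HasCompactSupport u) (x : E4) :
    ENNReal.ofReal |u x| ≤ ∫⁻ y, kk (y - x) * GG u y := by
  have hv : ContDiff ℝ 2 (fun z => u (x + z)) := hu.comp (contDiff_const.add contDiff_id)
  have hvc : HasCompactSupport (fun z => u (x + z)) :=
    huc.comp_homeomorph (Homeomorph.addLeft x)
  have h0 := repr0 hv hvc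
  simp only [add_zero] at h0
  refine h0.trans ?_
  have e1 : ∫⁻ y, kk (y - x) * GG u y = ∫⁻ z, kk z * GG u (x + z) := by
    rw [← lintegral_add_left_eq_self (fun y => kk (y - x) * GG u y) x]
    simp
  rw [e1]
  apply lintegral_mono
  intro z
  have e2 : ∀ z, fderiv ℝ (fun z => u (x + z)) z = fderiv ℝ u (x + z) := by
    intro z
    exact fderiv_comp_add_left x
  have e3 : lap (fun z => u (x + z)) z = lap u (x + z) := by
    unfold lap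
    apply Finset.sum_congr rfl
    intro i _
    have : fderiv ℝ (fun z => u (x + z)) = fun z => fderiv ℝ u (x + z) := funext e2
    rw [this, fderiv_comp_add_left x]
  simp only
  rw [e2, e3]
  unfold kk GG
  rw [← ENNReal.ofReal_mul (Real.sqrt_nonneg _)]
  apply ENNReal.ofReal_le_ofReal
  have := cs_two (ka z) (kb z) |lap u (x + z)| ‖fderiv ℝ u (x + z)‖
  rwa [sq_abs] at this

lemma ksq_le (z : E4) : ka z ^ 2 + kb z ^ 2 ≤ (1 / (4 * Real.pi ^ 2 * ‖z‖ ^ 2)) ^ 2 := by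
  have hpi := Real.pi_pos
  by_cases hz : ‖z‖ = 0
  · unfold ka kb
    rw [hz]
    simp
  have hz0 : 0 < ‖z‖ := lt_of_le_of_ne (norm_nonneg _) (Ne.symm hz)
  set ρ := ‖z‖ ^ 2 with hρ
  have hρ0 : 0 < ρ := by positivity
  have e1 : ka z ^ 2 + kb z ^ 2
      = (4 * Real.pi ^ 2)⁻¹ ^ 2 * ((ρ * (ρ + 1))⁻¹ ^ 2 + 4 * (ρ * ((ρ + 1) ^ 2)⁻¹ ^ 2)) := by
    unfold ka kb
    rw [← hρ]
    have : (2 * Real.pi ^ 2)⁻¹ = 2 * (4 * Real.pi ^ 2)⁻¹ := by field_simp; norm_num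
    rw [this]
    ring_nf
    rw [hρ]
    ring_nf
  have e2 : (1 / (4 * Real.pi ^ 2 * ρ)) ^ 2 = (4 * Real.pi ^ 2)⁻¹ ^ 2 * (ρ⁻¹ ^ 2) := by
    field_simp
  rw [e1, e2]
  apply mul_le_mul_of_nonneg_left _ (by positivity)
  have e3 : (ρ * (ρ + 1))⁻¹ ^ 2 + 4 * (ρ * ((ρ + 1) ^ 2)⁻¹ ^ 2)
      = ((ρ + 1) ^ 2 + 4 * ρ ^ 3) / (ρ ^ 2 * (ρ + 1) ^ 4) := by
    field_simp
  have e4 : ρ⁻¹ ^ 2 = (ρ + 1) ^ 4 / (ρ ^ 2 * (ρ + 1) ^ 4) := by
    field_simp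
  rw [e3, e4]
  apply div_le_div_of_nonneg_right _ (by positivity)
  nlinarith [sq_nonneg (ρ ^ 2), sq_nonneg ρ, hρ0, mul_pos hρ0 hρ0, mul_pos (mul_pos hρ0 hρ0) hρ0,
    pow_pos hρ0 4]

lemma ksq_tail {z : E4} (hz : 1 ≤ ‖z‖) :
    ka z ^ 2 + kb z ^ 2 ≤ 5 / (16 * Real.pi ^ 4) * (‖z‖ ^ 6)⁻¹ := by
  have hpi := Real.pi_pos
  have hz0 : 0 < ‖z‖ := by linarith
  set ρ := ‖z‖ ^ 2 with hρ
  have hρ1 : 1 ≤ ρ := one_le_pow₀ hz
  have hρ0 : 0 < ρ := by positivity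
  have e1 : ka z ^ 2 + kb z ^ 2
      = (4 * Real.pi ^ 2)⁻¹ ^ 2 * ((ρ * (ρ + 1))⁻¹ ^ 2 + 4 * (ρ * ((ρ + 1) ^ 2)⁻¹ ^ 2)) := by
    unfold ka kb
    rw [← hρ]
    have : (2 * Real.pi ^ 2)⁻¹ = 2 * (4 * Real.pi ^ 2)⁻¹ := by field_simp; norm_num
    rw [this]
    ring_nf
    rw [hρ]
    ring_nf
  have e2 : 5 / (16 * Real.pi ^ 4) * (‖z‖ ^ 6)⁻¹ = (4 * Real.pi ^ 2)⁻¹ ^ 2 * (5 * (ρ ^ 3)⁻¹) := by
    rw [hρ, ← pow_mul]
    field_simp
    norm_num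
  rw [e1, e2]
  apply mul_le_mul_of_nonneg_left _ (by positivity)
  have h1 : (ρ * (ρ + 1))⁻¹ ^ 2 ≤ (ρ ^ 3)⁻¹ := by
    rw [inv_pow]
    apply inv_anti₀ (by positivity)
    nlinarith [pow_pos hρ0 3, pow_pos hρ0 2]
  have h2 : ρ * ((ρ + 1) ^ 2)⁻¹ ^ 2 ≤ (ρ ^ 3)⁻¹ := by
    have h3 : ((ρ + 1) ^ 2)⁻¹ ^ 2 ≤ (ρ ^ 4)⁻¹ := by
      rw [inv_pow, ← pow_mul]
      apply inv_anti₀ (by positivity)
      gcongr
      linarith
    calc ρ * ((ρ + 1) ^ 2)⁻¹ ^ 2 ≤ ρ * (ρ ^ 4)⁻¹ := by gcongr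
      _ = (ρ ^ 3)⁻¹ := by field_simp
  linarith

lemma kk_le (z : E4) : kk z ≤ ENNReal.ofReal (1 / (4 * Real.pi ^ 2 * ‖z‖ ^ 2)) := by
  unfold kk
  apply ENNReal.ofReal_le_ofReal
  rw [Real.sqrt_le_left (by positivity)]
  exact ksq_le z

lemma kk_sq_tail {z : E4} (hz : 1 ≤ ‖z‖) :
    kk z ^ 2 ≤ ENNReal.ofReal (5 / (16 * Real.pi ^ 4) * (‖z‖ ^ 6)⁻¹) := by
  unfold kk
  rw [← ENNReal.ofReal_pow (Real.sqrt_nonneg _), Real.sq_sqrt (by positivity)]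
  exact ENNReal.ofReal_le_ofReal (ksq_tail hz)

end Pool.Agent.Lib.MP_65cb00_an
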