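import Mathlib
import Pool.Agent.Lib.MP_65cb00_an.Repr2

/-!
# Averages of the kernel over a set: square-integral estimates
-/

set_option autoImplicit false

namespace Pool.Agent.Lib.MP_65cb00_an

open MeasureTheory Set ENNReal Measure Filter Topology

/-- the height `1/(4 π² r²)` -/
noncomputable def ht (r : ℝ) : ℝ := 1 / (4 * Real.pi ^ 2 * r ^ 2)

/-- the constant `1/(32 π²)` -/
noncomputable def al : ℝ := 1 / (32 * Real.pi ^ 2)

lemma al_pos : 0 < al := by unfold al; positivity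

/-- high part of the Newton kernel -/
noncomputable def Nlt (r : ℝ) (z : E4) : ℝ≥0∞ :=
  ENNReal.ofReal (1 / (4 * Real.pi ^ 2 * ‖z‖ ^ 2) - 1 / (4 * Real.pi ^ 2 * r ^ 2))

/-- truncated kernel -/
noncomputable def kgt (r : ℝ) (z : E4) : ℝ≥0∞ := min (kk z) (ENNReal.ofReal (ht r))

lemma measurable_Nlt (r : ℝ) : Measurable (Nlt r) := by
  unfold Nlt
  fun_prop

lemma measurable_kgt (r : ℝ) : Measurable (kgt r) := measurable_kk.min measurable_const

lemma kk_le_add (r : ℝ) (hr : 0 < r) (z : E4) : kk z ≤ Nlt r z + kgt r z := by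
  unfold kgt
  rcases le_total (kk z) (ENNReal.ofReal (ht r)) with h | h
  · rw [min_eq_left h]
    exact le_add_self
  · rw [min_eq_right h]
    refine (kk_le z).trans ?_
    unfold Nlt ht
    calc ENNReal.ofReal (1 / (4 * Real.pi ^ 2 * ‖z‖ ^ 2))
        = ENNReal.ofReal ((1 / (4 * Real.pi ^ 2 * ‖z‖ ^ 2) - 1 / (4 * Real.pi ^ 2 * r ^ 2))
            + 1 / (4 * Real.pi ^ 2 * r ^ 2)) := by congr 1; ring
      _ ≤ _ := ENNReal.ofReal_add_le

/-- average of a kernel over a set -/
noncomputable def av (E : Set E4) (k : E4 → ℝ≥0∞) (y : E4) : ℝ≥0∞ :=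
  (volume E)⁻¹ * ∫⁻ x in E, k (y - x)

lemma measurable_av (E : Set E4) {k : E4 → ℝ≥0∞} (hk : Measurable k) : Measurable (av E k) := by
  unfold av
  apply Measurable.const_mul
  have h : Measurable (Function.uncurry fun y x : E4 => k (y - x)) :=
    hk.comp (measurable_fst.sub measurable_snd)
  exact h.lintegral_prod_right

lemma av_mono {E : Set E4} {k k' : E4 → ℝ≥0∞} (h : ∀ z, k z ≤ k' z) (y : E4) :
    av E k y ≤ av E k' y := by
  unfold av
  gcongr
  exact h _

lemma av_add {E : Set E4} {k k' : E4 → ℝ≥0∞} (hk : Measurable k) (y : E4) :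
    av E (fun z => k z + k' z) y = av E k y + av E k' y := by
  unfold av
  have h : Measurable fun x => k (y - x) := hk.comp (measurable_const.sub measurable_id)
  simp only
  rw [lintegral_add_left h, mul_add]

lemma av_le_of_integral {E : Set E4} {k : E4 → ℝ≥0∞} (y : E4) :
    av E k y ≤ (volume E)⁻¹ * ∫⁻ z, k z := by
  unfold av
  apply mul_le_mul_right
  calc ∫⁻ x in E, k (y - x) ≤ ∫⁻ x, k (y - x) := setLIntegral_le_lintegral _ _
    _ = ∫⁻ z, k z := lintegral_sub_left_eq_self k y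

lemma av_le_of_bound {E : Set E4} {k : E4 → ℝ≥0∞} {b : ℝ≥0∞} (h : ∀ z, k z ≤ b) (y : E4) :
    av E k y ≤ b := by
  unfold av
  calc (volume E)⁻¹ * ∫⁻ x in E, k (y - x) ≤ (volume E)⁻¹ * ∫⁻ _ in E, b := by
        gcongr
        exact h _
    _ = (volume E)⁻¹ * (b * volume E) := by rw [setLIntegral_const]
    _ = b * ((volume E)⁻¹ * volume E) := by ring
    _ ≤ b * 1 := by gcongr; exact ENNReal.inv_mul_le_one _
    _ = b := mul_one b

lemma integral_av {E F : Set E4} (hE0 : volume E ≠ 0) (hEt : volume E ≠ ∞) {k : E4 → ℝ≥0∞}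
    (hk : Measurable k) {Q : ℝ≥0∞} (hQ : ∀ x, ∫⁻ y in F, k (y - x) ≤ Q) :
    ∫⁻ y in F, av E k y ≤ Q := by
  unfold av
  rw [lintegral_const_mul']
  · rw [lintegral_lintegral_swap]
    · calc (volume E)⁻¹ * ∫⁻ x in E, ∫⁻ y in F, k (y - x) ≤ (volume E)⁻¹ * ∫⁻ _ in E, Q := by
            gcongr
            exact hQ _
        _ = (volume E)⁻¹ * (Q * volume E) := by rw [setLIntegral_const]
        _ = Q * ((volume E)⁻¹ * volume E) := by ring
        _ ≤ Q * 1 := by gcongr; exact ENNReal.inv_mul_le_one _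
        _ = Q := mul_one Q
    · exact (hk.comp (measurable_fst.sub measurable_snd)).aemeasurable
  · exact ENNReal.inv_ne_top.mpr hE0

/-- Cauchy-Schwarz for lower integrals -/
lemma cs_lintegral {μ : Measure E4} {f g : E4 → ℝ≥0∞} (hf : AEMeasurable f μ)
    (hg : AEMeasurable g μ) :
    (∫⁻ x, f x * g x ∂μ) ^ 2 ≤ (∫⁻ x, f x ^ 2 ∂μ) * ∫⁻ x, g x ^ 2 ∂μ := by
  have h := ENNReal.lintegral_mul_le_Lp_mul_Lq μ Real.HolderConjugate.two_two hf hg
  simp only [Pi.mul_apply] at h
  have h2 : (∫⁻ x, f x * g x ∂μ) ^ 2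
      ≤ ((∫⁻ x, f x ^ (2 : ℝ) ∂μ) ^ (1 / (2 : ℝ)) * (∫⁻ x, g x ^ (2 : ℝ) ∂μ) ^ (1 / (2 : ℝ))) ^ 2 := by
    gcongr
  refine h2.trans (le_of_eq ?_)
  rw [mul_pow, ← ENNReal.rpow_natCast, ← ENNReal.rpow_natCast, ← ENNReal.rpow_mul,
    ← ENNReal.rpow_mul]
  norm_num

lemma av_sq_le {E : Set E4} (hE0 : volume E ≠ 0) (hEt : volume E ≠ ∞) {k : E4 → ℝ≥0∞}
    (hk : Measurable k) (y : E4) : av E k y ^ 2 ≤ av E (fun z => k z ^ 2) y := by
  unfold av
  have h := cs_lintegral (μ := volume.restrict E) (f := fun _ => 1) (g := fun x => k (y - x))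
    aemeasurable_const (hk.comp (measurable_const.sub measurable_id)).aemeasurable
  simp only [one_mul, one_pow, lintegral_const, Measure.restrict_apply_univ] at h
  calc ((volume E)⁻¹ * ∫⁻ x in E, k (y - x)) ^ 2
      = (volume E)⁻¹ ^ 2 * (∫⁻ x in E, k (y - x)) ^ 2 := by rw [mul_pow]
    _ ≤ (volume E)⁻¹ ^ 2 * (volume E * ∫⁻ x in E, k (y - x) ^ 2) := by gcongr
    _ = ((volume E)⁻¹ * volume E) * ((volume E)⁻¹ * ∫⁻ x in E, k (y - x) ^ 2) := by ring
    _ ≤ 1 * ((volume E)⁻¹ * ∫⁻ x in E, k (y - x) ^ 2) := by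
        gcongr
        exact ENNReal.inv_mul_le_one _
    _ = _ := one_mul _

lemma ht_sq_mul {r : ℝ} (hr : 0 < r) :
    ENNReal.ofReal (ht r) ^ 2 * ENNReal.ofReal (Real.pi ^ 2 / 2 * r ^ 4) = ENNReal.ofReal al := by
  have hpi := Real.pi_pos
  rw [← ENNReal.ofReal_pow (by unfold ht; positivity), ← ENNReal.ofReal_mul (by positivity)]
  congr 1
  unfold ht al
  field_simp
  norm_num

lemma near_integral {r : ℝ} (hr : 0 < r) :
    ∫⁻ z : E4, (Metric.closedBall (0 : E4) r).indicator (fun _ => ENNReal.ofReal (ht r) ^ 2) z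
      = ENNReal.ofReal al := by
  rw [lintegral_indicator Metric.isClosed_closedBall.measurableSet, setLIntegral_const,
    Measure.addHaar_closedBall_eq_addHaar_ball, volume_ball4 0 hr.le, ht_sq_mul hr]

lemma kgt_le_ht (r : ℝ) (z : E4) : kgt r z ≤ ENNReal.ofReal (ht r) := min_le_right _ _

lemma kgt_le_kk (r : ℝ) (z : E4) : kgt r z ≤ kk z := min_le_left _ _

lemma Q_univ {r : ℝ} (hr : 0 < r) (hr1 : r ≤ 1) :
    ∫⁻ z, kgt r z ^ 2 ≤ ENNReal.ofReal (al * (4 * Real.log (1 / r) + 11)) := by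
  have hpi := Real.pi_pos
  have hlog : 0 ≤ Real.log (1 / r) := Real.log_nonneg (by rw [le_div_iff₀ hr]; linarith)
  have h1 : ∀ z : E4, kgt r z ^ 2 ≤
      (Metric.closedBall (0 : E4) r).indicator (fun _ => ENNReal.ofReal (ht r) ^ 2) z
      + ((Ioc r 1).indicator (fun s => ENNReal.ofReal (1 / (4 * Real.pi ^ 2 * s ^ 2)) ^ 2) ‖z‖
      + (Ioi (1 : ℝ)).indicator
          (fun s => ENNReal.ofReal (5 / (16 * Real.pi ^ 4) * (s ^ 6)⁻¹)) ‖z‖) := by
    intro z
    by_cases hz1 : ‖z‖ ≤ r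
    · rw [indicator_of_mem (by simpa using hz1)]
      refine le_trans ?_ le_self_add
      gcongr
      exact kgt_le_ht r z
    · push Not at hz1
      by_cases hz2 : ‖z‖ ≤ 1
      · rw [indicator_of_mem (show ‖z‖ ∈ Ioc r 1 from ⟨hz1, hz2⟩)]
        refine le_trans ?_ (le_trans le_self_add le_add_self)
        gcongr
        exact (kgt_le_kk r z).trans (kk_le z)
      · push Not at hz2
        rw [indicator_of_mem (show ‖z‖ ∈ Ioi (1 : ℝ) from hz2)]
        refine le_trans ?_ (le_trans le_add_self le_add_self)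
        refine le_trans ?_ (kk_sq_tail hz2.le)
        gcongr
        exact kgt_le_kk r z
  refine (lintegral_mono h1).trans ?_
  have m1 : Measurable fun z : E4 => (Metric.closedBall (0 : E4) r).indicator
      (fun _ => ENNReal.ofReal (ht r) ^ 2) z :=
    measurable_const.indicator Metric.isClosed_closedBall.measurableSet
  have m2 : Measurable fun z : E4 =>
      (Ioc r 1).indicator (fun s => ENNReal.ofReal (1 / (4 * Real.pi ^ 2 * s ^ 2)) ^ 2) ‖z‖ :=
    ((by fun_prop : Measurable fun s : ℝ =>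
      ENNReal.ofReal (1 / (4 * Real.pi ^ 2 * s ^ 2)) ^ 2).indicator measurableSet_Ioc).comp
      measurable_norm
  rw [lintegral_add_left m1, lintegral_add_left m2, near_integral hr, int_Nsq hr hr1, int_tail,
    ← ENNReal.ofReal_add (by positivity) (by positivity), ← ENNReal.ofReal_add al_pos.le (by positivity)]
  apply ENNReal.ofReal_le_ofReal
  unfold al
  apply le_of_eq
  field_simp
  ring

lemma Q_F {r R : ℝ} (hr : 0 < r) (hrR : r ≤ R) {F : Set E4}
    (hF : volume F ≤ ENNReal.ofReal (Real.pi ^ 2 / 2 * R ^ 4)) (x : E4) :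
    ∫⁻ y in F, kgt r (y - x) ^ 2 ≤ ENNReal.ofReal (al * (4 * Real.log (R / r) + 2)) := by
  have hpi := Real.pi_pos
  have hR : 0 < R := hr.trans_le hrR
  have hlog : 0 ≤ Real.log (R / r) := Real.log_nonneg (by rw [le_div_iff₀ hr]; linarith)
  set f1 : E4 → ℝ≥0∞ := fun z =>
    (Metric.closedBall (0 : E4) r).indicator (fun _ => ENNReal.ofReal (ht r) ^ 2) z with hf1
  set f2 : E4 → ℝ≥0∞ := fun z =>
    (Ioc r R).indicator (fun s => ENNReal.ofReal (1 / (4 * Real.pi ^ 2 * s ^ 2)) ^ 2) ‖z‖ with hf2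
  have h1 : ∀ z : E4, kgt r z ^ 2 ≤ f1 z + (f2 z + ENNReal.ofReal (ht R) ^ 2) := by
    intro z
    by_cases hz1 : ‖z‖ ≤ r
    · have : f1 z = ENNReal.ofReal (ht r) ^ 2 := by
        simp only [hf1]
        rw [indicator_of_mem (by simpa using hz1)]
      rw [this]
      refine le_trans ?_ le_self_add
      gcongr
      exact kgt_le_ht r z
    · push Not at hz1
      by_cases hz2 : ‖z‖ ≤ R
      · have : f2 z = ENNReal.ofReal (1 / (4 * Real.pi ^ 2 * ‖z‖ ^ 2)) ^ 2 := by
          simp only [hf2]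
          rw [indicator_of_mem (show ‖z‖ ∈ Ioc r R from ⟨hz1, hz2⟩)]
        rw [this]
        refine le_trans ?_ (le_trans le_self_add le_add_self)
        gcongr
        exact (kgt_le_kk r z).trans (kk_le z)
      · push Not at hz2
        refine le_trans ?_ (le_trans le_add_self le_add_self)
        gcongr
        refine (kgt_le_kk r z).trans ((kk_le z).trans ?_)
        apply ENNReal.ofReal_le_ofReal
        unfold ht
        gcongr
  have m1 : Measurable f1 := measurable_const.indicator Metric.isClosed_closedBall.measurableSet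
  have m2 : Measurable f2 :=
    ((by fun_prop : Measurable fun s : ℝ =>
      ENNReal.ofReal (1 / (4 * Real.pi ^ 2 * s ^ 2)) ^ 2).indicator measurableSet_Ioc).comp
      measurable_norm
  have hm : Measurable fun y : E4 => y - x := measurable_id.sub measurable_const
  calc ∫⁻ y in F, kgt r (y - x) ^ 2
      ≤ ∫⁻ y in F, (f1 (y - x) + (f2 (y - x) + ENNReal.ofReal (ht R) ^ 2)) :=
        lintegral_mono fun y => h1 _
    _ = (∫⁻ y in F, f1 (y - x)) + ((∫⁻ y in F, f2 (y - x))
          + ENNReal.ofReal (ht R) ^ 2 * volume F) := by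
        have n1 : Measurable fun y => f1 (y - x) := m1.comp hm
        have n2 : Measurable fun y => f2 (y - x) := m2.comp hm
        rw [lintegral_add_left n1, lintegral_add_left n2, setLIntegral_const]
    _ ≤ (∫⁻ y, f1 (y - x)) + ((∫⁻ y, f2 (y - x)) + ENNReal.ofReal (ht R) ^ 2 *
          ENNReal.ofReal (Real.pi ^ 2 / 2 * R ^ 4)) := by
        apply add_le_add (setLIntegral_le_lintegral _ _)
        apply add_le_add (setLIntegral_le_lintegral _ _)
        gcongr
    _ = ENNReal.ofReal al + (ENNReal.ofReal (1 / (8 * Real.pi ^ 2) * Real.log (R / r))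
          + ENNReal.ofReal al) := by
        rw [lintegral_sub_right_eq_self f1 x, lintegral_sub_right_eq_self f2 x, ht_sq_mul hR,
          near_integral hr, int_Nsq hr hrR]
    _ = ENNReal.ofReal (al * (4 * Real.log (R / r) + 2)) := by
        have := al_pos
        rw [← ENNReal.ofReal_add (by positivity) al_pos.le,
          ← ENNReal.ofReal_add al_pos.le (by positivity)]
        congr 1
        unfold al
        field_simp
        ring

/-- the main square-integral estimate for the averaged kernel -/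
lemma avsq {E F : Set E4} {r : ℝ} (hr : 0 < r)
    (hE : volume E = ENNReal.ofReal (Real.pi ^ 2 / 2 * r ^ 4)) {Q : ℝ≥0∞}
    (hQ : ∀ x, ∫⁻ y in F, kgt r (y - x) ^ 2 ≤ Q) :
    ∫⁻ y in F, av E kk y ^ 2 ≤ ENNReal.ofReal (3 * al) + Q := by
  have hpi := Real.pi_pos
  have hE0 : volume E ≠ 0 := by
    rw [hE]
    have : 0 < Real.pi ^ 2 / 2 * r ^ 4 := by positivity
    exact (ENNReal.ofReal_pos.mpr this).ne'
  have hEt : volume E ≠ ∞ := by rw [hE]; exact ENNReal.ofReal_ne_top
  have ma := measurable_av E (measurable_Nlt r)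
  have mb := measurable_av E (measurable_kgt r)
  have h1 : ∀ y, av E kk y ^ 2 ≤ av E (Nlt r) y ^ 2
      + (2 * av E (Nlt r) y * av E (kgt r) y + av E (kgt r) y ^ 2) := by
    intro y
    have h2 : av E kk y ≤ av E (Nlt r) y + av E (kgt r) y := by
      rw [← av_add (measurable_Nlt r)]
      exact av_mono (kk_le_add r hr) y
    calc av E kk y ^ 2 ≤ (av E (Nlt r) y + av E (kgt r) y) ^ 2 := by gcongr
      _ = _ := by ring
  have hN : ∫⁻ z, Nlt r z = ENNReal.ofReal (r ^ 2 / 8) := int_Nlt hr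
  have hNi : ∫⁻ y in F, av E (Nlt r) y ≤ ENNReal.ofReal (r ^ 2 / 8) := by
    apply integral_av hE0 hEt (measurable_Nlt r)
    intro x
    calc ∫⁻ y in F, Nlt r (y - x) ≤ ∫⁻ y, Nlt r (y - x) := setLIntegral_le_lintegral _ _
      _ = ∫⁻ y, Nlt r y := lintegral_sub_right_eq_self (Nlt r) x
      _ ≤ _ := hN.le
  have hA : ∫⁻ y in F, av E (Nlt r) y ^ 2 ≤ ENNReal.ofReal al := by
    have h3 : ∀ y, av E (Nlt r) y ^ 2
        ≤ (volume E)⁻¹ * ENNReal.ofReal (r ^ 2 / 8) * av E (Nlt r) y := by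
      intro y
      rw [pow_two]
      gcongr
      rw [← hN]
      exact av_le_of_integral y
    calc ∫⁻ y in F, av E (Nlt r) y ^ 2
        ≤ ∫⁻ y in F, (volume E)⁻¹ * ENNReal.ofReal (r ^ 2 / 8) * av E (Nlt r) y :=
          lintegral_mono fun y => h3 y
      _ = (volume E)⁻¹ * ENNReal.ofReal (r ^ 2 / 8) * ∫⁻ y in F, av E (Nlt r) y :=
          lintegral_const_mul _ ma
      _ ≤ (volume E)⁻¹ * ENNReal.ofReal (r ^ 2 / 8) * ENNReal.ofReal (r ^ 2 / 8) := by gcongr
      _ = ENNReal.ofReal al := by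
          rw [hE, ← ENNReal.ofReal_inv_of_pos (by positivity), ← ENNReal.ofReal_mul (by positivity),
            ← ENNReal.ofReal_mul (by positivity)]
          congr 1
          unfold al
          field_simp
          norm_num
  have hB : ∫⁻ y in F, 2 * av E (Nlt r) y * av E (kgt r) y ≤ ENNReal.ofReal (2 * al) := by
    have h3 : ∀ y, 2 * av E (Nlt r) y * av E (kgt r) y
        ≤ 2 * ENNReal.ofReal (ht r) * av E (Nlt r) y := by
      intro y
      have h4 : av E (kgt r) y ≤ ENNReal.ofReal (ht r) := av_le_of_bound (kgt_le_ht r) y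
      calc 2 * av E (Nlt r) y * av E (kgt r) y ≤ 2 * av E (Nlt r) y * ENNReal.ofReal (ht r) := by
            gcongr
        _ = _ := by ring
    calc ∫⁻ y in F, 2 * av E (Nlt r) y * av E (kgt r) y
        ≤ ∫⁻ y in F, 2 * ENNReal.ofReal (ht r) * av E (Nlt r) y := lintegral_mono fun y => h3 y
      _ = 2 * ENNReal.ofReal (ht r) * ∫⁻ y in F, av E (Nlt r) y := lintegral_const_mul _ ma
      _ ≤ 2 * ENNReal.ofReal (ht r) * ENNReal.ofReal (r ^ 2 / 8) := by gcongr
      _ = ENNReal.ofReal (2 * al) := by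
          rw [show (2 : ℝ≥0∞) = ENNReal.ofReal 2 by simp, ← ENNReal.ofReal_mul (by norm_num),
            ← ENNReal.ofReal_mul (by unfold ht; positivity)]
          congr 1
          unfold al ht
          field_simp
          norm_num
  have hC : ∫⁻ y in F, av E (kgt r) y ^ 2 ≤ Q := by
    calc ∫⁻ y in F, av E (kgt r) y ^ 2 ≤ ∫⁻ y in F, av E (fun z => kgt r z ^ 2) y :=
          lintegral_mono fun y => av_sq_le hE0 hEt (measurable_kgt r) y
      _ ≤ Q := integral_av hE0 hEt ((measurable_kgt r).pow_const 2) hQ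
  calc ∫⁻ y in F, av E kk y ^ 2
      ≤ ∫⁻ y in F, (av E (Nlt r) y ^ 2
        + (2 * av E (Nlt r) y * av E (kgt r) y + av E (kgt r) y ^ 2)) :=
        lintegral_mono fun y => h1 y
    _ = (∫⁻ y in F, av E (Nlt r) y ^ 2) + ((∫⁻ y in F, 2 * av E (Nlt r) y * av E (kgt r) y)
        + ∫⁻ y in F, av E (kgt r) y ^ 2) := by
        have n2 : Measurable fun y => 2 * av E (Nlt r) y * av E (kgt r) y :=
          (ma.const_mul 2).mul mb
        rw [lintegral_add_left (ma.pow_const 2), lintegral_add_left n2]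
    _ ≤ ENNReal.ofReal al + (ENNReal.ofReal (2 * al) + Q) := by gcongr
    _ = ENNReal.ofReal (3 * al) + Q := by
        rw [← add_assoc, ← ENNReal.ofReal_add al_pos.le (by linarith [al_pos])]
        congr 2
        ring

lemma avsq_univ {E : Set E4} {r : ℝ} (hr : 0 < r) (hr1 : r ≤ 1)
    (hE : volume E = ENNReal.ofReal (Real.pi ^ 2 / 2 * r ^ 4)) :
    ∫⁻ y, av E kk y ^ 2 ≤ ENNReal.ofReal (al * (4 * Real.log (1 / r) + 14)) := by
  have hlog : 0 ≤ Real.log (1 / r) := Real.log_nonneg (by rw [le_div_iff₀ hr]; linarith)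
  have h := avsq (F := univ) hr hE (Q := ENNReal.ofReal (al * (4 * Real.log (1 / r) + 11)))
    (fun x => by
      rw [Measure.restrict_univ, lintegral_sub_right_eq_self (fun z => kgt r z ^ 2) x]
      exact Q_univ hr hr1)
  rw [Measure.restrict_univ] at h
  refine h.trans (le_of_eq ?_)
  have := al_pos
  rw [← ENNReal.ofReal_add (by positivity) (by positivity)]
  congr 1
  ring

lemma avsq_F {E F : Set E4} {r R : ℝ} (hr : 0 < r) (hrR : r ≤ R)
    (hE : volume E = ENNReal.ofReal (Real.pi ^ 2 / 2 * r ^ 4))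
    (hF : volume F ≤ ENNReal.ofReal (Real.pi ^ 2 / 2 * R ^ 4)) :
    ∫⁻ y in F, av E kk y ^ 2 ≤ ENNReal.ofReal (al * (4 * Real.log (R / r) + 5)) := by
  have hlog : 0 ≤ Real.log (R / r) := Real.log_nonneg (by rw [le_div_iff₀ hr]; linarith)
  have h := avsq (F := F) hr hE (Q := ENNReal.ofReal (al * (4 * Real.log (R / r) + 2)))
    (Q_F hr hrR hF)
  refine h.trans (le_of_eq ?_)
  have := al_pos
  rw [← ENNReal.ofReal_add (by positivity) (by positivity)]
  congr 1
  ring

end Pool.Agent.Lib.MP_65cb00_an
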