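import Mathlib

/-!
# Counting and summation lemmas
-/

set_option autoImplicit false

namespace Pool.Agent.Lib.MP_65cb00_an

lemma card_interval {S : Finset ℕ} {a : ℕ} {W : ℝ} (hW : 0 ≤ W)
    (h : ∀ n ∈ S, a ≤ n ∧ (n : ℝ) - a ≤ W) : (S.card : ℝ) ≤ W + 1 := by
  have h1 : S ⊆ Finset.Icc a (a + ⌊W⌋₊) := by
    intro n hn
    obtain ⟨h1, h2⟩ := h n hn
    rw [Finset.mem_Icc]
    refine ⟨h1, ?_⟩
    have h3 : ((n - a : ℕ) : ℝ) ≤ W := by rw [Nat.cast_sub h1]; exact h2
    have h4 : n - a ≤ ⌊W⌋₊ := Nat.le_floor h3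
    omega
  have h2 := Finset.card_le_card h1
  rw [Nat.card_Icc] at h2
  have h3 : S.card ≤ ⌊W⌋₊ + 1 := by omega
  calc (S.card : ℝ) ≤ ((⌊W⌋₊ + 1 : ℕ) : ℝ) := by exact_mod_cast h3
    _ = (⌊W⌋₊ : ℝ) + 1 := by push_cast; ring
    _ ≤ W + 1 := by linarith [Nat.floor_le hW]

lemma count_le {S : Finset ℕ} {W : ℝ} (hW : 0 ≤ W)
    (h : ∀ n1 ∈ S, ∀ n2 ∈ S, n1 < n2 → (n1 : ℝ) ≤ W ∨ (n2 : ℝ) - n1 ≤ W) :
    (S.card : ℝ) ≤ 2 * W + 2 := by
  classical
  have h1 : ((S.filter fun n : ℕ => (n : ℝ) ≤ W).card : ℝ) ≤ W + 1 := by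
    apply card_interval (a := 0) hW
    intro n hn
    rw [Finset.mem_filter] at hn
    exact ⟨Nat.zero_le _, by simpa using hn.2⟩
  have h2 : ((S.filter fun n : ℕ => ¬ (n : ℝ) ≤ W).card : ℝ) ≤ W + 1 := by
    by_cases hne : (S.filter fun n : ℕ => ¬ (n : ℝ) ≤ W).Nonempty
    · set a := (S.filter fun n : ℕ => ¬ (n : ℝ) ≤ W).min' hne with ha
      apply card_interval (a := a) hW
      intro n hn
      have h3 : a ≤ n := Finset.min'_le _ _ hn
      refine ⟨h3, ?_⟩
      rcases h3.eq_or_lt with h4 | h4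
      · rw [h4]; simpa using hW
      · have ham : a ∈ S.filter fun n : ℕ => ¬ (n : ℝ) ≤ W := Finset.min'_mem _ _
        rw [Finset.mem_filter] at ham hn
        rcases h a ham.1 n hn.1 h4 with h5 | h5
        · exact absurd h5 ham.2
        · exact h5
    · rw [Finset.not_nonempty_iff_eq_empty] at hne
      rw [hne]
      simp
      linarith
  have h3 := Finset.card_filter_add_card_filter_not (s := S) (fun n : ℕ => (n : ℝ) ≤ W)
  have h4 : (S.card : ℝ) = ((S.filter fun n : ℕ => (n : ℝ) ≤ W).card : ℝ)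
      + ((S.filter fun n : ℕ => ¬ (n : ℝ) ≤ W).card : ℝ) := by exact_mod_cast h3.symm
  rw [h4]
  linarith

/-- a series used as a bound -/
noncomputable def expSeries : ℝ := ∑' j : ℕ, ((j : ℝ) + 2) * Real.exp (-(j : ℝ))

lemma expSeries_summable : Summable fun j : ℕ => ((j : ℝ) + 2) * Real.exp (-(j : ℝ)) := by
  have h1 := Real.summable_pow_mul_exp_neg_nat_mul 1 (r := 1) one_pos
  have h0 := Real.summable_pow_mul_exp_neg_nat_mul 0 (r := 1) one_pos
  have h2 := h1.add (h0.mul_left 2)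
  refine h2.congr fun j => ?_
  simp only [pow_one, pow_zero, one_mul, neg_mul]
  ring

lemma sum_exp_le {S : Finset ℕ} {τ : ℕ → ℝ} {A B : ℝ} (hB : 0 ≤ B)
    (hlow : ∀ n ∈ S, -A ≤ τ n)
    (hcount : ∀ t : ℝ, -A ≤ t → ((S.filter fun n => τ n ≤ t).card : ℝ) ≤ B * (t + A + 1)) :
    ∑ n ∈ S, Real.exp (-τ n) ≤ Real.exp A * B * expSeries := by
  classical
  set j : ℕ → ℕ := fun n => ⌊τ n + A⌋₊ with hj
  obtain ⟨J, hJ⟩ : ∃ J : ℕ, ∀ n ∈ S, j n < J := by
    refine ⟨(S.sup j) + 1, fun n hn => ?_⟩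
    exact Nat.lt_succ_of_le (Finset.le_sup hn)
  have h1 : ∑ n ∈ S, Real.exp (-τ n) ≤ ∑ n ∈ S, Real.exp A * Real.exp (-(j n : ℝ)) := by
    apply Finset.sum_le_sum
    intro n hn
    rw [← Real.exp_add]
    apply Real.exp_le_exp.mpr
    have := Nat.floor_le (show 0 ≤ τ n + A by linarith [hlow n hn])
    simp only [hj]
    linarith
  have h2 : ∑ n ∈ S, Real.exp A * Real.exp (-(j n : ℝ))
      = ∑ i ∈ Finset.range J, ∑ n ∈ S.filter (fun n => j n = i),
          Real.exp A * Real.exp (-(j n : ℝ)) := by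
    rw [Finset.sum_fiberwise_of_maps_to]
    intro n hn
    exact Finset.mem_range.mpr (hJ n hn)
  have h3 : ∀ i ∈ Finset.range J, ∑ n ∈ S.filter (fun n => j n = i),
      Real.exp A * Real.exp (-(j n : ℝ)) ≤ Real.exp A * B * (((i : ℝ) + 2) * Real.exp (-(i : ℝ))) := by
    intro i _
    have e1 : ∑ n ∈ S.filter (fun n => j n = i), Real.exp A * Real.exp (-(j n : ℝ))
        = ∑ n ∈ S.filter (fun n => j n = i), Real.exp A * Real.exp (-(i : ℝ)) := by
      apply Finset.sum_congr rfl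
      intro n hn
      rw [(Finset.mem_filter.mp hn).2]
    rw [e1, Finset.sum_const, nsmul_eq_mul]
    have e2 : (((S.filter (fun n => j n = i)).card : ℕ) : ℝ) ≤ B * ((i : ℝ) + 2) := by
      have e3 : (S.filter (fun n => j n = i)) ⊆ S.filter (fun n => τ n ≤ (i : ℝ) + 1 - A) := by
        intro n hn
        rw [Finset.mem_filter] at hn ⊢
        refine ⟨hn.1, ?_⟩
        have := Nat.lt_floor_add_one (τ n + A)
        have e4 : (⌊τ n + A⌋₊ : ℝ) = i := by
          have := hn.2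
          simp only [hj] at this
          exact_mod_cast this
        rw [e4] at this
        linarith
      have e5 : (((S.filter (fun n => j n = i)).card : ℕ) : ℝ)
          ≤ ((S.filter (fun n => τ n ≤ (i : ℝ) + 1 - A)).card : ℝ) := by
        exact_mod_cast Finset.card_le_card e3
      have e6 := hcount ((i : ℝ) + 1 - A) (by linarith [Nat.cast_nonneg (α := ℝ) i])
      calc _ ≤ _ := e5
        _ ≤ B * ((i : ℝ) + 1 - A + A + 1) := e6
        _ = B * ((i : ℝ) + 2) := by ring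
    calc (((S.filter (fun n => j n = i)).card : ℕ) : ℝ) * (Real.exp A * Real.exp (-(i : ℝ)))
        ≤ (B * ((i : ℝ) + 2)) * (Real.exp A * Real.exp (-(i : ℝ))) :=
          mul_le_mul_of_nonneg_right e2 (by positivity)
      _ = _ := by ring
  calc ∑ n ∈ S, Real.exp (-τ n) ≤ _ := h1
    _ = _ := h2
    _ ≤ ∑ i ∈ Finset.range J, Real.exp A * B * (((i : ℝ) + 2) * Real.exp (-(i : ℝ))) :=
        Finset.sum_le_sum h3
    _ = Real.exp A * B * ∑ i ∈ Finset.range J, (((i : ℝ) + 2) * Real.exp (-(i : ℝ))) := by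
        rw [Finset.mul_sum]
    _ ≤ Real.exp A * B * expSeries := by
        apply mul_le_mul_of_nonneg_left _ (by positivity)
        exact expSeries_summable.sum_le_tsum _ (fun i _ => by positivity)

end Pool.Agent.Lib.MP_65cb00_an
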