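import Mathlib

/-!
# Elementary numerical lemmas: the one-dimensional part of the argument
-/

set_option autoImplicit false

namespace Pool.Agent.Lib.MP_65cb00_an

lemma numeric_lower {n ℓ L C : ℝ} (hC : 0 ≤ C) (hn : 0 ≤ n) (hℓ : 0 ≤ ℓ) (hL1 : L ^ 2 ≤ 1)
    (h : √n ≤ √(ℓ + C) * √(1 - L ^ 2) + C * L) : n ≤ ℓ + C + C ^ 2 := by
  have e1 : √(ℓ + C) ^ 2 = ℓ + C := Real.sq_sqrt (by linarith)
  have e2 : √(1 - L ^ 2) ^ 2 = 1 - L ^ 2 := Real.sq_sqrt (by linarith)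
  have e3 : √n ^ 2 = n := Real.sq_sqrt hn
  set a := √(ℓ + C)
  set b := √(1 - L ^ 2)
  set s := √n with hs
  have hs0 : 0 ≤ s := Real.sqrt_nonneg _
  have h2 : s ^ 2 ≤ (a * b + C * L) ^ 2 := pow_le_pow_left₀ hs0 h 2
  have h3 : (a * b + C * L) ^ 2 ≤ (a ^ 2 + C ^ 2) * (b ^ 2 + L ^ 2) := by
    nlinarith [sq_nonneg (a * L - C * b)]
  rw [e1, e2] at h3
  rw [← e3]
  calc s ^ 2 ≤ (ℓ + C + C ^ 2) * (1 - L ^ 2 + L ^ 2) := h2.trans h3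
    _ = ℓ + C + C ^ 2 := by ring

/-- first inequality squared -/
lemma numeric_X {C n1 L τ a b s1 T : ℝ} (hC : 1 ≤ C) (ha0 : 0 ≤ a) (hb0 : 0 ≤ b) (hb1 : b ≤ 1)
    (hs10 : 0 ≤ s1) (hL0 : 0 ≤ L) (hL1 : L ≤ 1) (e2 : b ^ 2 = 1 - L ^ 2) (e3 : s1 ^ 2 = n1)
    (hI : s1 ≤ a * b + C * L) (h1 : a ^ 2 - C - n1 ≤ τ) (hT : T = τ + C + 2 * C ^ 2 + 1)
    (hT1 : 1 ≤ T) : (L * a) ^ 2 ≤ (2 + 2 * C ^ 2) * T := by
  have g1 : s1 ^ 2 ≤ (a * b + C * L) ^ 2 := pow_le_pow_left₀ hs10 hI 2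
  have k1 : (a * L * C) * b ≤ (a * L * C) * 1 := mul_le_mul_of_nonneg_left hb1 (by positivity)
  have k2 : C ^ 2 * L ^ 2 ≤ C ^ 2 * 1 :=
    mul_le_mul_of_nonneg_left (pow_le_one₀ hL0 hL1) (sq_nonneg C)
  have k3 : a ^ 2 * b ^ 2 = a ^ 2 - (L * a) ^ 2 := by rw [e2]; ring
  have g2 : (a * b + C * L) ^ 2 ≤ a ^ 2 - (L * a) ^ 2 + 2 * C * (L * a) + C ^ 2 := by
    have : (a * b + C * L) ^ 2 = a ^ 2 * b ^ 2 + 2 * ((a * L * C) * b) + C ^ 2 * L ^ 2 := by ring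
    rw [this, k3]
    linarith
  have g4 : (L * a) ^ 2 - 2 * C * (L * a) ≤ C + C ^ 2 + τ := by linarith
  have g5 : (L * a) ^ 2 ≤ 2 * (C + C ^ 2 + τ) + 4 * C ^ 2 := by
    have := sq_nonneg (L * a - 2 * C)
    have e : (L * a - 2 * C) ^ 2 = (L * a) ^ 2 - 4 * C * (L * a) + 4 * C ^ 2 := by ring
    rw [e] at this
    linarith
  have g7 : C ^ 2 ≤ C ^ 2 * T := le_mul_of_one_le_right (sq_nonneg C) hT1
  have g8 : (2 + 2 * C ^ 2) * T = 2 * T + 2 * (C ^ 2 * T) := by ring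
  rw [g8]
  linarith

/-- a constant in the next lemma -/
def KK (C : ℝ) : ℝ := 20 + 40 * (1 + C ^ 2) + 4 * C + 2 * C ^ 2

lemma numeric_case1 {C n1 X T : ℝ} (hC : 1 ≤ C) (hT1 : 1 ≤ T)
    (hX : X ≤ (2 + 2 * C ^ 2) * T) (h : n1 ≤ 8 * X + C + C ^ 2) : n1 ≤ KK C * T := by
  have t1 : C ≤ C * T := le_mul_of_one_le_right (by linarith) hT1
  have t2 : C ^ 2 ≤ C ^ 2 * T := le_mul_of_one_le_right (sq_nonneg C) hT1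
  have t3 : 0 ≤ C * T := by positivity
  have t4 : 0 ≤ C ^ 2 * T := by positivity
  have e : KK C * T = 20 * T + 40 * T + 40 * (C ^ 2 * T) + 4 * (C * T) + 2 * (C ^ 2 * T) := by
    unfold KK; ring
  have e2 : (2 + 2 * C ^ 2) * T = 2 * T + 2 * (C ^ 2 * T) := by ring
  rw [e2] at hX
  rw [e]
  linarith

lemma numeric_case2 {C n1 n2 ℓ1 ℓ2 L τ a d s2 T : ℝ} (hC : 1 ≤ C)
    (ha0 : 0 ≤ a) (hd0 : 0 ≤ d) (hs20 : 0 ≤ s2) (hL0 : 0 ≤ L) (hℓ1 : 0 ≤ ℓ1)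
    (e1 : a ^ 2 = ℓ1 + C) (e5 : d ^ 2 = ℓ2 - ℓ1 + C) (e4 : s2 ^ 2 = n2)
    (hII : s2 ≤ a + C * L + L * d) (h2 : ℓ2 - n2 ≤ τ) (hlow : n1 ≤ ℓ1 + C + C ^ 2)
    (hlow' : ℓ1 - n1 ≤ τ)
    (hT : T = τ + C + 2 * C ^ 2 + 1) (hT1 : 1 ≤ T)
    (hX : (L * a) ^ 2 ≤ (2 + 2 * C ^ 2) * T) (hcase : 8 * (L * a) ^ 2 ≤ ℓ1 + C) :
    n2 - n1 ≤ KK C * T := by
  have g1 : s2 ^ 2 ≤ (a + L * (C + d)) ^ 2 := by
    apply pow_le_pow_left₀ hs20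
    calc s2 ≤ a + C * L + L * d := hII
      _ = a + L * (C + d) := by ring
  have hY0 : 0 ≤ C + d := by positivity
  have hY2 : (C + d) ^ 2 ≤ 2 * C ^ 2 + 2 * (ℓ2 - ℓ1 + C) := by
    have := sq_nonneg (C - d)
    have e : (C - d) ^ 2 = 2 * C ^ 2 + 2 * d ^ 2 - (C + d) ^ 2 := by ring
    rw [e, e5] at this
    linarith
  generalize C + d = Y at g1 hY0 hY2
  have hL8 : L ^ 2 * (ℓ1 + C) * 8 ≤ ℓ1 + C := by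
    have : (L * a) ^ 2 = L ^ 2 * (ℓ1 + C) := by rw [mul_pow, e1]
    linarith
  have hL2 : L ^ 2 ≤ 1 / 8 := by
    have hpos : 0 < ℓ1 + C := by linarith
    have h3 : (L ^ 2 * 8) * (ℓ1 + C) ≤ 1 * (ℓ1 + C) := by linarith
    have := le_of_mul_le_mul_right h3 hpos
    linarith
  have g2 : (a + L * Y) ^ 2 = a ^ 2 + 2 * (L * a) * Y + L ^ 2 * Y ^ 2 := by ring
  have g3 : L ^ 2 * Y ^ 2 ≤ (1 / 8) * Y ^ 2 := mul_le_mul_of_nonneg_right hL2 (sq_nonneg Y)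
  have g4 : 2 * (L * a) * Y ≤ 8 * (L * a) ^ 2 + Y ^ 2 / 8 := by
    have := sq_nonneg (8 * (L * a) - Y)
    have e : (8 * (L * a) - Y) ^ 2 = 64 * (L * a) ^ 2 - 16 * ((L * a) * Y) + Y ^ 2 := by ring
    rw [e] at this
    linarith
  have g5 : n2 ≤ ℓ1 + C + 8 * (L * a) ^ 2 + Y ^ 2 / 4 := by
    rw [← e4]
    rw [g2, e1] at g1
    linarith
  have hCC : C ≤ C ^ 2 := by nlinarith
  have g6 : (ℓ2 - ℓ1) / 2 ≤ τ + C + 8 * (L * a) ^ 2 + (C ^ 2 + C) / 2 := by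
    linarith
  have t1 : C ≤ C * T := le_mul_of_one_le_right (by linarith) hT1
  have t2 : C ^ 2 ≤ C ^ 2 * T := le_mul_of_one_le_right (sq_nonneg C) hT1
  have t3 : 0 ≤ C * T := by positivity
  have t4 : 0 ≤ C ^ 2 * T := by positivity
  have e : KK C * T = 20 * T + 40 * T + 40 * (C ^ 2 * T) + 4 * (C * T) + 2 * (C ^ 2 * T) := by
    unfold KK; ring
  have e2 : (2 + 2 * C ^ 2) * T = 2 * T + 2 * (C ^ 2 * T) := by ring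
  rw [e2] at hX
  have g7 : ℓ2 - ℓ1 ≤ 2 * T + 16 * (2 * T + 2 * (C ^ 2 * T)) := by
    linarith
  have g9 : n2 - n1 ≤ 8 * (L * a) ^ 2 + Y ^ 2 / 4 + C + τ := by linarith
  have g10 : Y ^ 2 / 4 ≤ C ^ 2 / 2 + (ℓ2 - ℓ1) / 2 + C / 2 := by linarith
  rw [e]
  linarith

lemma numeric {C : ℝ} (hC : 1 ≤ C) {n1 n2 ℓ1 ℓ2 L τ : ℝ} (hn1 : 0 ≤ n1) (hn2 : 0 ≤ n2)
    (hℓ1 : 0 ≤ ℓ1) (hℓ : ℓ1 ≤ ℓ2) (hL0 : 0 ≤ L) (hL1 : L ^ 2 ≤ 1)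
    (hI : √n1 ≤ √(ℓ1 + C) * √(1 - L ^ 2) + C * L)
    (hII : √n2 ≤ √(ℓ1 + C) + C * L + L * √(ℓ2 - ℓ1 + C))
    (h1 : ℓ1 - n1 ≤ τ) (h2 : ℓ2 - n2 ≤ τ) :
    1 ≤ τ + C + 2 * C ^ 2 + 1 ∧
      (n1 ≤ KK C * (τ + C + 2 * C ^ 2 + 1) ∨ n2 - n1 ≤ KK C * (τ + C + 2 * C ^ 2 + 1)) := by
  have hlow := numeric_lower (by linarith) hn1 hℓ1 hL1 hI
  have hT1 : 1 ≤ τ + C + 2 * C ^ 2 + 1 := by
    have : -(C + C ^ 2) ≤ τ := by linarith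
    have := sq_nonneg C
    linarith
  refine ⟨hT1, ?_⟩
  have e1 : √(ℓ1 + C) ^ 2 = ℓ1 + C := Real.sq_sqrt (by linarith)
  have e2 : √(1 - L ^ 2) ^ 2 = 1 - L ^ 2 := Real.sq_sqrt (by linarith)
  have e3 : √n1 ^ 2 = n1 := Real.sq_sqrt hn1
  have e4 : √n2 ^ 2 = n2 := Real.sq_sqrt hn2
  have e5 : √(ℓ2 - ℓ1 + C) ^ 2 = ℓ2 - ℓ1 + C := Real.sq_sqrt (by linarith)
  have ha0 := Real.sqrt_nonneg (ℓ1 + C)
  have hb0 := Real.sqrt_nonneg (1 - L ^ 2)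
  have hs10 := Real.sqrt_nonneg n1
  have hs20 := Real.sqrt_nonneg n2
  have hd0 := Real.sqrt_nonneg (ℓ2 - ℓ1 + C)
  have hb1 : √(1 - L ^ 2) ≤ 1 := by
    rw [Real.sqrt_le_one]
    have := sq_nonneg L
    linarith
  have hL1' : L ≤ 1 := by nlinarith
  have hX := numeric_X hC ha0 hb0 hb1 hs10 hL0 hL1' e2 e3 hI (by rw [e1]; linarith) rfl hT1
  by_cases hcase : ℓ1 + C < 8 * (L * √(ℓ1 + C)) ^ 2
  · left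
    exact numeric_case1 hC hT1 hX (by linarith)
  · right
    push Not at hcase
    exact numeric_case2 hC ha0 hd0 hs20 hL0 hℓ1 e1 e5 e4 hII h2 hlow h1 rfl hT1 hX hcase

end Pool.Agent.Lib.MP_65cb00_an
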