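import Mathlib
import Pool.Agent.Lib.MP_65cb00_an.Radial

/-!
# Superlevel sets of prescribed measure
-/

set_option autoImplicit false

namespace Pool.Agent.Lib.MP_65cb00_an

open MeasureTheory Set ENNReal Measure Filter Topology

lemma exists_subset {S : Set E4} (hS : MeasurableSet S) {m : ℝ≥0∞} (hm : m ≠ ∞)
    (hmS : m ≤ volume S) : ∃ T, T ⊆ S ∧ MeasurableSet T ∧ volume T = m := by
  have hpi := Real.pi_pos
  rcases hmS.eq_or_lt with h | h
  · exact ⟨S, subset_rfl, hS, h.symm⟩
  -- the distribution function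
  set φ : ℝ → ℝ := fun ρ => (volume (S ∩ Metric.ball (0 : E4) ρ)).toReal with hφ
  have hfin : ∀ ρ, volume (S ∩ Metric.ball (0 : E4) ρ) ≠ ∞ := fun ρ =>
    ne_top_of_le_ne_top measure_ball_lt_top.ne (measure_mono inter_subset_right)
  -- continuity
  have hmono : ∀ a b : ℝ, 0 ≤ a → a ≤ b →
      φ a ≤ φ b ∧ φ b - φ a ≤ Real.pi ^ 2 / 2 * b ^ 4 - Real.pi ^ 2 / 2 * a ^ 4 := by
    intro a b ha hab
    have hb : 0 ≤ b := ha.trans hab
    constructor
    · apply ENNReal.toReal_mono (hfin b)
      exact measure_mono (inter_subset_inter_right S (Metric.ball_subset_ball hab))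
    · have h1 : volume (S ∩ Metric.ball (0 : E4) b) + volume (Metric.ball (0 : E4) a)
          ≤ volume (S ∩ Metric.ball (0 : E4) a) + volume (Metric.ball (0 : E4) b) := by
        have e1 : volume (Metric.ball (0 : E4) a) + volume (Metric.ball (0 : E4) b \ Metric.ball 0 a)
            = volume (Metric.ball (0 : E4) b) := by
          rw [← measure_union disjoint_sdiff_right
            (Metric.isOpen_ball.measurableSet.diff Metric.isOpen_ball.measurableSet)]
          rw [union_sdiff_cancel (Metric.ball_subset_ball hab)]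
        have e2 : S ∩ Metric.ball (0 : E4) b
            ⊆ (S ∩ Metric.ball (0 : E4) a) ∪ (Metric.ball (0 : E4) b \ Metric.ball 0 a) := by
          rintro x ⟨hx1, hx2⟩
          by_cases hx3 : x ∈ Metric.ball (0 : E4) a
          · exact Or.inl ⟨hx1, hx3⟩
          · exact Or.inr ⟨hx2, hx3⟩
        calc volume (S ∩ Metric.ball (0 : E4) b) + volume (Metric.ball (0 : E4) a)
            ≤ (volume (S ∩ Metric.ball (0 : E4) a) + volume (Metric.ball (0 : E4) b \ Metric.ball 0 a))
              + volume (Metric.ball (0 : E4) a) := by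
              gcongr
              exact (measure_mono e2).trans (measure_union_le _ _)
          _ = volume (S ∩ Metric.ball (0 : E4) a)
              + (volume (Metric.ball (0 : E4) a) + volume (Metric.ball (0 : E4) b \ Metric.ball 0 a)) := by
              ring
          _ = _ := by rw [e1]
      rw [volume_ball4 0 ha, volume_ball4 0 hb] at h1
      have h2 := ENNReal.toReal_mono (by
        exact ENNReal.add_ne_top.mpr ⟨hfin a, ENNReal.ofReal_ne_top⟩) h1
      rw [ENNReal.toReal_add (hfin b) ENNReal.ofReal_ne_top,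
        ENNReal.toReal_add (hfin a) ENNReal.ofReal_ne_top,
        ENNReal.toReal_ofReal (by positivity), ENNReal.toReal_ofReal (by positivity)] at h2
      simp only [hφ]
      linarith
  have habs : ∀ a b : ℝ, 0 ≤ a → 0 ≤ b →
      |φ a - φ b| ≤ |Real.pi ^ 2 / 2 * a ^ 4 - Real.pi ^ 2 / 2 * b ^ 4| := by
    intro a b ha hb
    rcases le_total a b with hab | hab
    · obtain ⟨h1, h2⟩ := hmono a b ha hab
      have h3 : Real.pi ^ 2 / 2 * a ^ 4 ≤ Real.pi ^ 2 / 2 * b ^ 4 := by gcongr
      rw [abs_sub_comm, abs_of_nonneg (by linarith), abs_sub_comm, abs_of_nonneg (by linarith)]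
      exact h2
    · obtain ⟨h1, h2⟩ := hmono b a hb hab
      have h3 : Real.pi ^ 2 / 2 * b ^ 4 ≤ Real.pi ^ 2 / 2 * a ^ 4 := by gcongr
      rw [abs_of_nonneg (by linarith), abs_of_nonneg (by linarith)]
      exact h2
  have hcont : ContinuousOn φ (Ici 0) := by
    rw [Metric.continuousOn_iff]
    intro b hb ε hε
    have hV : ContinuousAt (fun ρ : ℝ => Real.pi ^ 2 / 2 * ρ ^ 4) b := by fun_prop
    rw [Metric.continuousAt_iff] at hV
    obtain ⟨δ, hδ, h1⟩ := hV ε hε
    refine ⟨δ, hδ, fun a ha hab => ?_⟩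
    have h2 := h1 hab
    rw [Real.dist_eq] at h2 ⊢
    exact (habs a b ha hb).trans_lt h2
  -- a radius where the measure exceeds m
  have hlim : Tendsto (fun n : ℕ => volume (S ∩ Metric.ball (0 : E4) (n : ℝ))) atTop
      (𝓝 (volume S)) := by
    have h1 : S = ⋃ n : ℕ, S ∩ Metric.ball (0 : E4) (n : ℝ) := by
      rw [← inter_iUnion, Metric.iUnion_ball_nat, inter_univ]
    conv => rhs; rw [h1]
    apply tendsto_measure_iUnion_atTop
    intro a b hab
    exact inter_subset_inter_right S (Metric.ball_subset_ball (by exact_mod_cast hab))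
  obtain ⟨n, hn⟩ := (hlim.eventually (lt_mem_nhds h)).exists
  have h0 : φ 0 = 0 := by simp [hφ]
  have hn' : m.toReal ≤ φ n := ENNReal.toReal_mono (hfin n) hn.le
  have hIVT := intermediate_value_Icc (Nat.cast_nonneg n)
    (hcont.mono (fun x (hx : x ∈ Icc (0 : ℝ) n) => hx.1))
  obtain ⟨ρ, _, hρ⟩ := hIVT (show m.toReal ∈ Icc (φ 0) (φ n) from
    ⟨by rw [h0]; exact ENNReal.toReal_nonneg, hn'⟩)
  refine ⟨S ∩ Metric.ball (0 : E4) ρ, inter_subset_left,
    hS.inter Metric.isOpen_ball.measurableSet, ?_⟩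
  exact (ENNReal.toReal_eq_toReal_iff' (hfin ρ) hm).mp hρ

lemma split {G : E4 → ℝ≥0∞} (hG : Measurable G) (hG2 : ∫⁻ y, G y ^ 2 ≤ 1) {m : ℝ≥0∞}
    (hm0 : m ≠ 0) (hmt : m ≠ ∞) :
    ∃ (F : Set E4) (γ : ℝ≥0∞), MeasurableSet F ∧ volume F = m ∧ γ ≠ ∞ ∧
      (∀ y ∈ F, γ ≤ G y) ∧ (∀ y ∉ F, G y ≤ γ) := by
  have hcheb : ∀ t : ℝ≥0∞, t ^ 2 * volume {y | t < G y} ≤ 1 := by
    intro t
    calc t ^ 2 * volume {y | t < G y} = ∫⁻ _ in {y | t < G y}, t ^ 2 := by rw [setLIntegral_const]
      _ ≤ ∫⁻ y in {y | t < G y}, G y ^ 2 := by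
          apply setLIntegral_mono (hG.pow_const 2)
          intro y hy
          have : t < G y := hy
          gcongr
      _ ≤ ∫⁻ y, G y ^ 2 := setLIntegral_le_lintegral _ _
      _ ≤ 1 := hG2
  set γ : ℝ≥0∞ := sInf {t : ℝ≥0∞ | volume {y | t < G y} ≤ m} with hγ
  have hγt : γ ≠ ∞ := by
    -- some finite t works
    obtain ⟨t, ht, ht0⟩ : ∃ t : ℝ≥0∞, t ≠ ∞ ∧ 1 ≤ t ^ 2 * m := by
      have hm1 : m⁻¹ ≠ ∞ := ENNReal.inv_ne_top.mpr hm0
      refine ⟨1 + m⁻¹, by simp [hm1, ENNReal.add_ne_top], ?_⟩
      calc (1 : ℝ≥0∞) = m⁻¹ * m := (ENNReal.inv_mul_cancel hm0 hmt).symm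
        _ ≤ (1 + m⁻¹) ^ 2 * m := by
            gcongr
            calc m⁻¹ ≤ 1 + m⁻¹ := le_add_self
              _ = (1 + m⁻¹) * 1 := (mul_one _).symm
              _ ≤ (1 + m⁻¹) * (1 + m⁻¹) := by gcongr; exact le_self_add
              _ = (1 + m⁻¹) ^ 2 := by ring
    have hmem : volume {y | t < G y} ≤ m := by
      have h1 := hcheb t
      have ht2 : t ^ 2 ≠ 0 := by
        intro h
        rw [h, zero_mul] at ht0
        simp at ht0
      have ht3 : t ^ 2 ≠ ∞ := ENNReal.pow_ne_top ht
      have h2 : t ^ 2 * volume {y | t < G y} ≤ t ^ 2 * m := h1.trans ht0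
      exact (ENNReal.mul_le_mul_iff_right ht2 ht3).mp h2
    exact ne_top_of_le_ne_top ht (sInf_le hmem)
  -- upper bound for the strict superlevel set
  have hA : volume {y | γ < G y} ≤ m := by
    obtain ⟨s, hs1, hs2, hs3⟩ := exists_seq_strictAnti_tendsto' (show γ < ∞ from hγt.lt_top)
    have h1 : {y | γ < G y} = ⋃ n, {y | s n < G y} := by
      ext y
      simp only [mem_ofPred_eq, mem_iUnion]
      constructor
      · intro hy
        exact ((hs3.eventually (gt_mem_nhds hy)).exists)
      · rintro ⟨n, hn⟩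
        exact (hs2 n).1.trans hn
    have hmono : Monotone fun n => {y | s n < G y} := by
      intro a b hab y hy
      exact (hs1.antitone hab).trans_lt hy
    have h2 := tendsto_measure_iUnion_atTop (μ := (volume : Measure E4)) hmono
    rw [← h1] at h2
    apply le_of_tendsto h2
    refine Eventually.of_forall fun n => ?_
    obtain ⟨t, ht1, ht2⟩ := sInf_lt_iff.mp (show γ < s n from (hs2 n).1)
    refine le_trans (measure_mono ?_) ht1
    intro y hy
    exact ht2.trans hy
  -- lower bound for the superlevel set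
  have hB : m ≤ volume {y | γ ≤ G y} := by
    by_cases hγ0 : γ = 0
    · have : {y : E4 | γ ≤ G y} = univ := by
        ext y; simp [hγ0]
      rw [this]
      have : volume (univ : Set E4) = ∞ := measure_univ_of_isAddLeftInvariant _
      rw [this]
      exact le_top
    · by_contra hcon
      push Not at hcon
      obtain ⟨s, hs1, hs2, hs3⟩ := exists_seq_strictMono_tendsto' (show 0 < γ from pos_iff_ne_zero.mpr hγ0)
      have h1 : {y | γ ≤ G y} = ⋂ n, {y | s n < G y} := by
        ext y
        simp only [mem_ofPred_eq, mem_iInter]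
        constructor
        · intro hy n
          exact (hs2 n).2.trans_le hy
        · intro h
          exact le_of_tendsto hs3 (Eventually.of_forall fun n => (h n).le)
      have hanti : Antitone fun n => {y | s n < G y} := by
        intro a b hab y hy
        exact (hs1.monotone hab).trans_lt hy
      have hfin : ∃ n, volume {y | s n < G y} ≠ ∞ := by
        refine ⟨0, ?_⟩
        have h2 := hcheb (s 0)
        intro h3
        rw [h3] at h2
        have h4 : s 0 ^ 2 ≠ 0 := pow_ne_zero 2 (hs2 0).1.ne'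
        rw [ENNReal.mul_top h4] at h2
        simp at h2
      have h2 := tendsto_measure_iInter_atTop (μ := (volume : Measure E4))
        (fun n => (measurableSet_lt measurable_const hG).nullMeasurableSet) hanti hfin
      rw [← h1] at h2
      obtain ⟨n, hn⟩ := (h2.eventually (gt_mem_nhds hcon)).exists
      have h3 : γ ≤ s n := sInf_le hn.le
      exact absurd h3 (not_le.mpr (hs2 n).2)
  -- fill up
  have mA : MeasurableSet {y | γ < G y} := measurableSet_lt measurable_const hG
  have mS : MeasurableSet {y | G y = γ} := hG (measurableSet_singleton γ)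
  have hsum : volume {y | γ ≤ G y} = volume {y | γ < G y} + volume {y | G y = γ} := by
    rw [← measure_union _ mS]
    · congr 1
      ext y
      simp only [mem_ofPred_eq, mem_union]
      rw [le_iff_lt_or_eq]
      constructor
      · rintro (h | h)
        · exact Or.inl h
        · exact Or.inr h.symm
      · rintro (h | h)
        · exact Or.inl h
        · exact Or.inr h.symm
    · rw [Set.disjoint_left]
      intro y hy1 hy2
      have h1 : γ < G y := hy1
      have h2 : G y = γ := hy2
      rw [h2] at h1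
      exact lt_irrefl _ h1
  have hneed : m - volume {y | γ < G y} ≤ volume {y | G y = γ} := by
    rw [tsub_le_iff_left, ← hsum]
    exact hB
  obtain ⟨T, hTS, mT, hT⟩ := exists_subset mS (ne_top_of_le_ne_top hmt tsub_le_self) hneed
  refine ⟨{y | γ < G y} ∪ T, γ, mA.union mT, ?_, hγt, ?_, ?_⟩
  · rw [measure_union _ mT, hT, add_tsub_cancel_of_le hA]
    rw [Set.disjoint_left]
    intro y hy1 hy2
    have h1 : γ < G y := hy1
    have h2 : G y = γ := hTS hy2
    rw [h2] at h1
    exact lt_irrefl _ h1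
  · rintro y (hy | hy)
    · exact le_of_lt hy
    · exact le_of_eq (hTS hy).symm
  · intro y hy
    have : ¬ γ < G y := fun h => hy (Or.inl h)
    exact not_lt.mp this

end Pool.Agent.Lib.MP_65cb00_an
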