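import Mathlib
import Pool.Agent.Lib.MP_65cb00_an.Avg
import Pool.Agent.Lib.MP_65cb00_an.Split

/-!
# The two-level inequalities
-/

set_option autoImplicit false

namespace Pool.Agent.Lib.MP_65cb00_an

open MeasureTheory Set ENNReal Measure Filter Topology

/-- the potential of a density -/
noncomputable def pot (G : E4 → ℝ≥0∞) (x : E4) : ℝ≥0∞ := ∫⁻ y, kk (y - x) * G y

lemma measurable_pot {G : E4 → ℝ≥0∞} (hG : Measurable G) : Measurable (pot G) := by
  unfold pot
  have h : Measurable (Function.uncurry fun x y : E4 => kk (y - x) * G y) :=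
    (measurable_kk.comp (measurable_snd.sub measurable_fst)).mul (hG.comp measurable_snd)
  exact h.lintegral_prod_right

lemma pairing {G : E4 → ℝ≥0∞} (hG : Measurable G) {E : Set E4} (hE0 : volume E ≠ 0) :
    (volume E)⁻¹ * ∫⁻ x in E, pot G x = ∫⁻ y, G y * av E kk y := by
  unfold pot
  rw [lintegral_lintegral_swap]
  · rw [← lintegral_const_mul']
    · apply lintegral_congr
      intro y
      unfold av
      have h : Measurable fun x => kk (y - x) := measurable_kk.comp (measurable_const.sub measurable_id)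
      rw [lintegral_mul_const _ h]
      ring
    · exact ENNReal.inv_ne_top.mpr hE0
  · exact ((measurable_kk.comp (measurable_snd.sub measurable_fst)).mul
      (hG.comp measurable_snd)).aemeasurable

/-- square roots of `ENNReal` inequalities -/
lemma le_ofReal_of_sq_le {a : ℝ≥0∞} {b : ℝ} (hb : 0 ≤ b) (h : a ^ 2 ≤ ENNReal.ofReal (b ^ 2)) :
    a ≤ ENNReal.ofReal b := by
  rw [ENNReal.ofReal_pow hb] at h
  exact (ENNReal.pow_le_pow_left_iff two_ne_zero).mp h

lemma average_le {E : Set E4} (hE0 : volume E ≠ 0) (hEt : volume E ≠ ∞) (mE : MeasurableSet E)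
    {P : E4 → ℝ≥0∞} (hP : Measurable P) {a : ℝ≥0∞} (h : ∀ x ∈ E, a ≤ P x) :
    a ≤ (volume E)⁻¹ * ∫⁻ x in E, P x := by
  calc a = (volume E)⁻¹ * (a * volume E) := by
        rw [mul_comm a, ← mul_assoc, ENNReal.inv_mul_cancel hE0 hEt, one_mul]
    _ = (volume E)⁻¹ * ∫⁻ _ in E, a := by rw [setLIntegral_const]
    _ ≤ (volume E)⁻¹ * ∫⁻ x in E, P x := by
        apply mul_le_mul_right
        exact setLIntegral_mono hP h

section

variable {G : E4 → ℝ≥0∞} (hG : Measurable G) (hG2 : ∫⁻ y, G y ^ 2 ≤ 1)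
  {F : Set E4} (mF : MeasurableSet F) {r : ℝ} (hr : 0 < r) (hr1 : r ≤ 1)
  (hF : volume F = ENNReal.ofReal (Real.pi ^ 2 / 2 * r ^ 4))

include hG2 in
lemma IF_ne_top : ∫⁻ y in F, G y ^ 2 ≠ ∞ :=
  ne_top_of_le_ne_top ENNReal.one_ne_top ((setLIntegral_le_lintegral _ _).trans hG2)

/-- the `L²` mass of `G` on `F` -/
noncomputable def LL (G : E4 → ℝ≥0∞) (F : Set E4) : ℝ := √(∫⁻ y in F, G y ^ 2).toReal

lemma LL_nonneg (G : E4 → ℝ≥0∞) (F : Set E4) : 0 ≤ LL G F := Real.sqrt_nonneg _

include hG2 in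
lemma LL_sq : ∫⁻ y in F, G y ^ 2 = ENNReal.ofReal (LL G F ^ 2) := by
  unfold LL
  rw [Real.sq_sqrt ENNReal.toReal_nonneg, ENNReal.ofReal_toReal (IF_ne_top hG2)]

include hG2 in
lemma LL_sq_le : LL G F ^ 2 ≤ 1 := by
  have h : ENNReal.ofReal (LL G F ^ 2) ≤ ENNReal.ofReal 1 := by
    rw [← LL_sq hG2, ENNReal.ofReal_one]
    exact (setLIntegral_le_lintegral _ _).trans hG2
  rwa [ENNReal.ofReal_le_ofReal_iff zero_le_one] at h

include hG2 mF in
lemma compl_mass : ∫⁻ y in Fᶜ, G y ^ 2 ≤ ENNReal.ofReal (1 - LL G F ^ 2) := by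
  have h1 : (∫⁻ y in F, G y ^ 2) + (∫⁻ y in Fᶜ, G y ^ 2) = ∫⁻ y, G y ^ 2 :=
    lintegral_add_compl _ mF
  have h2 : ENNReal.ofReal (LL G F ^ 2) + (∫⁻ y in Fᶜ, G y ^ 2) ≤ 1 := by
    rw [← LL_sq hG2]
    exact le_trans (le_of_eq h1) hG2
  have h3 : ∫⁻ y in Fᶜ, G y ^ 2 ≤ 1 - ENNReal.ofReal (LL G F ^ 2) :=
    ENNReal.le_sub_of_add_le_left ENNReal.ofReal_ne_top h2
  rwa [← ENNReal.ofReal_one, ← ENNReal.ofReal_sub _ (sq_nonneg _)] at h3

include hG hG2 mF hr hr1 hF in
/-- first inequality -/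
lemma ineq_one {E : Set E4} (mE : MeasurableSet E)
    (hE : volume E = ENNReal.ofReal (Real.pi ^ 2 / 2 * r ^ 4)) {lam : ℝ} (hlam : 0 ≤ lam)
    (h : ∀ x ∈ E, ENNReal.ofReal lam ≤ pot G x) :
    lam ≤ √al * (√(4 * Real.log (1 / r) + 14) * √(1 - LL G F ^ 2) + 14 * LL G F) := by
  have hpi := Real.pi_pos
  have hal := al_pos
  have hvol : 0 < Real.pi ^ 2 / 2 * r ^ 4 := by positivity
  have hE0 : volume E ≠ 0 := by rw [hE]; exact (ENNReal.ofReal_pos.mpr hvol).ne'
  have hEt : volume E ≠ ∞ := by rw [hE]; exact ENNReal.ofReal_ne_top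
  have hlog : 0 ≤ Real.log (1 / r) := Real.log_nonneg (by rw [le_div_iff₀ hr]; linarith)
  have hL0 := LL_nonneg G F
  have hL1 := LL_sq_le (F := F) hG2
  have mav := measurable_av E measurable_kk
  have h1 := average_le hE0 hEt mE (measurable_pot hG) h
  rw [pairing hG hE0, ← lintegral_add_compl _ mF] at h1
  -- the part on F
  have h2 : ∫⁻ y in F, G y * av E kk y ≤ ENNReal.ofReal (√(al * 5) * LL G F) := by
    apply le_ofReal_of_sq_le (by positivity)
    refine (cs_lintegral hG.aemeasurable mav.aemeasurable).trans ?_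
    have h3 := avsq_F hr le_rfl hE hF.le
    rw [div_self hr.ne', Real.log_one, mul_zero, zero_add] at h3
    calc (∫⁻ y in F, G y ^ 2) * ∫⁻ y in F, av E kk y ^ 2
        ≤ ENNReal.ofReal (LL G F ^ 2) * ENNReal.ofReal (al * 5) := by
          rw [LL_sq hG2]
          gcongr
      _ = ENNReal.ofReal ((√(al * 5) * LL G F) ^ 2) := by
          rw [← ENNReal.ofReal_mul (sq_nonneg _), mul_pow, Real.sq_sqrt (by positivity), mul_comm]
  -- the part off F
  have h4 : ∫⁻ y in Fᶜ, G y * av E kk y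
      ≤ ENNReal.ofReal (√(al * (4 * Real.log (1 / r) + 14)) * √(1 - LL G F ^ 2)) := by
    apply le_ofReal_of_sq_le (by positivity)
    refine (cs_lintegral hG.aemeasurable mav.aemeasurable).trans ?_
    have h3 := avsq_univ hr hr1 hE
    calc (∫⁻ y in Fᶜ, G y ^ 2) * ∫⁻ y in Fᶜ, av E kk y ^ 2
        ≤ ENNReal.ofReal (1 - LL G F ^ 2) * ENNReal.ofReal (al * (4 * Real.log (1 / r) + 14)) := by
          gcongr
          · exact compl_mass hG2 mF
          · exact (setLIntegral_le_lintegral _ _).trans h3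
      _ = _ := by
          rw [← ENNReal.ofReal_mul (by linarith), mul_pow, Real.sq_sqrt (by positivity),
            Real.sq_sqrt (by linarith), mul_comm]
  have h5 : ENNReal.ofReal lam ≤ ENNReal.ofReal (√(al * 5) * LL G F
      + √(al * (4 * Real.log (1 / r) + 14)) * √(1 - LL G F ^ 2)) := by
    rw [ENNReal.ofReal_add (by positivity) (by positivity)]
    exact h1.trans (add_le_add h2 h4)
  rw [ENNReal.ofReal_le_ofReal_iff (by positivity)] at h5
  rw [Real.sqrt_mul hal.le, Real.sqrt_mul hal.le] at h5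
  have h6 : √(5 : ℝ) ≤ 14 := by
    rw [Real.sqrt_le_left (by norm_num)]
    norm_num
  calc lam ≤ _ := h5
    _ = √al * (√(4 * Real.log (1 / r) + 14) * √(1 - LL G F ^ 2) + √5 * LL G F) := by ring
    _ ≤ _ := by gcongr

include hG hG2 mF hr hr1 hF in
/-- second inequality -/
lemma ineq_two {γ : ℝ≥0∞} (hγt : γ ≠ ∞) (hγ1 : ∀ y ∈ F, γ ≤ G y) (hγ2 : ∀ y ∉ F, G y ≤ γ)
    {E : Set E4} (mE : MeasurableSet E) {r2 : ℝ} (hr2 : 0 < r2) (hr2r : r2 ≤ r)
    (hE : volume E = ENNReal.ofReal (Real.pi ^ 2 / 2 * r2 ^ 4)) {lam : ℝ} (hlam : 0 ≤ lam)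
    (h : ∀ x ∈ E, ENNReal.ofReal lam ≤ pot G x) :
    lam ≤ √al * (√(4 * Real.log (1 / r) + 14) + 14 * LL G F
      + LL G F * √(4 * Real.log (r / r2) + 14)) := by
  have hpi := Real.pi_pos
  have hal := al_pos
  have hvol2 : 0 < Real.pi ^ 2 / 2 * r2 ^ 4 := by positivity
  have hvol : 0 < Real.pi ^ 2 / 2 * r ^ 4 := by positivity
  have hE0 : volume E ≠ 0 := by rw [hE]; exact (ENNReal.ofReal_pos.mpr hvol2).ne'
  have hEt : volume E ≠ ∞ := by rw [hE]; exact ENNReal.ofReal_ne_top
  have hlog : 0 ≤ Real.log (1 / r) := Real.log_nonneg (by rw [le_div_iff₀ hr]; linarith)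
  have hlog2 : 0 ≤ Real.log (r / r2) := Real.log_nonneg (by rw [le_div_iff₀ hr2]; linarith)
  have hL0 := LL_nonneg G F
  have hL1 := LL_sq_le (F := F) hG2
  have mav := measurable_av E measurable_kk
  set G1 : E4 → ℝ≥0∞ := F.indicator G with hG1
  have mG1 : Measurable G1 := hG.indicator mF
  -- bound for γ
  have hγ3 : γ ^ 2 * ENNReal.ofReal (Real.pi ^ 2 / 2 * r ^ 4) ≤ ENNReal.ofReal (LL G F ^ 2) := by
    rw [← hF, ← LL_sq hG2]
    calc γ ^ 2 * volume F = ∫⁻ _ in F, γ ^ 2 := by rw [setLIntegral_const]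
      _ ≤ ∫⁻ y in F, G y ^ 2 := by
          apply setLIntegral_mono (hG.pow_const 2)
          intro y hy
          have := hγ1 y hy
          gcongr
  have hγ4 : γ * ENNReal.ofReal (r ^ 2 / 8) ≤ ENNReal.ofReal (√al * LL G F) := by
    apply le_ofReal_of_sq_le (by positivity)
    have e1 : (γ * ENNReal.ofReal (r ^ 2 / 8)) ^ 2
        = (γ ^ 2 * ENNReal.ofReal (Real.pi ^ 2 / 2 * r ^ 4)) * ENNReal.ofReal al := by
      rw [mul_pow, mul_assoc, ← ENNReal.ofReal_pow (by positivity),
        ← ENNReal.ofReal_mul (by positivity)]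
      congr 2
      unfold al
      field_simp
      norm_num
    rw [e1]
    calc (γ ^ 2 * ENNReal.ofReal (Real.pi ^ 2 / 2 * r ^ 4)) * ENNReal.ofReal al
        ≤ ENNReal.ofReal (LL G F ^ 2) * ENNReal.ofReal al := by gcongr
      _ = _ := by
          rw [← ENNReal.ofReal_mul (sq_nonneg _), mul_pow, Real.sq_sqrt hal.le, mul_comm]
  -- pointwise bound of the part off F
  have hoff : ∀ x, ∫⁻ y in Fᶜ, kk (y - x) * G y
      ≤ ENNReal.ofReal (√al * LL G F + √(al * (4 * Real.log (1 / r) + 11))) := by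
    intro x
    have hm : Measurable fun y : E4 => y - x := measurable_id.sub measurable_const
    have n1 : Measurable fun y => Nlt r (y - x) * G y := ((measurable_Nlt r).comp hm).mul hG
    have n2 : Measurable fun y => kgt r (y - x) := (measurable_kgt r).comp hm
    calc ∫⁻ y in Fᶜ, kk (y - x) * G y
        ≤ ∫⁻ y in Fᶜ, (Nlt r (y - x) * G y + kgt r (y - x) * G y) := by
          apply lintegral_mono
          intro y
          calc kk (y - x) * G y ≤ (Nlt r (y - x) + kgt r (y - x)) * G y := by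
                gcongr
                exact kk_le_add r hr _
            _ = _ := add_mul _ _ _
      _ = (∫⁻ y in Fᶜ, Nlt r (y - x) * G y) + ∫⁻ y in Fᶜ, kgt r (y - x) * G y := by
          rw [lintegral_add_left n1]
      _ ≤ ENNReal.ofReal (√al * LL G F) + ENNReal.ofReal (√(al * (4 * Real.log (1 / r) + 11))) := by
          apply add_le_add
          · calc ∫⁻ y in Fᶜ, Nlt r (y - x) * G y ≤ ∫⁻ y in Fᶜ, γ * Nlt r (y - x) := by
                  apply setLIntegral_mono (((measurable_Nlt r).comp hm).const_mul γ)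
                  intro y hy
                  rw [mul_comm]
                  exact mul_le_mul_left (hγ2 y hy) _
              _ ≤ ∫⁻ y, γ * Nlt r (y - x) := setLIntegral_le_lintegral _ _
              _ = γ * ∫⁻ y, Nlt r (y - x) := lintegral_const_mul' _ _ hγt
              _ = γ * ENNReal.ofReal (r ^ 2 / 8) := by
                  rw [lintegral_sub_right_eq_self (Nlt r) x]
                  congr 1
                  exact int_Nlt hr
              _ ≤ _ := hγ4
          · apply le_ofReal_of_sq_le (by positivity)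
            refine (cs_lintegral n2.aemeasurable hG.aemeasurable).trans ?_
            calc (∫⁻ y in Fᶜ, kgt r (y - x) ^ 2) * ∫⁻ y in Fᶜ, G y ^ 2
                ≤ (∫⁻ y, kgt r (y - x) ^ 2) * ∫⁻ y, G y ^ 2 := by
                  gcongr ?_ * ?_
                  · exact setLIntegral_le_lintegral _ _
                  · exact setLIntegral_le_lintegral _ _
              _ ≤ ENNReal.ofReal (al * (4 * Real.log (1 / r) + 11)) * 1 := by
                  apply mul_le_mul' _ hG2
                  rw [lintegral_sub_right_eq_self (fun z => kgt r z ^ 2) x]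
                  exact Q_univ hr hr1
              _ = _ := by rw [mul_one, Real.sq_sqrt (by positivity)]
      _ = _ := by rw [ENNReal.ofReal_add (by positivity) (by positivity)]
  set b : ℝ := √al * LL G F + √(al * (4 * Real.log (1 / r) + 11)) with hb
  have hb0 : 0 ≤ b := by positivity
  -- decomposition of the potential
  have hdec : ∀ x, pot G x ≤ pot G1 x + ENNReal.ofReal b := by
    intro x
    have e1 : pot G x = (∫⁻ y in F, kk (y - x) * G y) + ∫⁻ y in Fᶜ, kk (y - x) * G y :=
      (lintegral_add_compl _ mF).symm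
    have e2 : pot G1 x = ∫⁻ y in F, kk (y - x) * G y := by
      unfold pot
      rw [← lintegral_indicator mF]
      apply lintegral_congr
      intro y
      by_cases hy : y ∈ F
      · rw [hG1, indicator_of_mem hy, indicator_of_mem hy]
      · rw [hG1, indicator_of_notMem hy, indicator_of_notMem hy, mul_zero]
    rw [e1, e2]
    gcongr
    exact hoff x
  have h1 := average_le hE0 hEt mE ((measurable_pot mG1).add_const (ENNReal.ofReal b))
    (fun x hx => (h x hx).trans (hdec x))
  have h2 : (volume E)⁻¹ * ∫⁻ x in E, (pot G1 x + ENNReal.ofReal b)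
      = (∫⁻ y, G1 y * av E kk y) + ENNReal.ofReal b := by
    rw [lintegral_add_right _ measurable_const, mul_add, pairing mG1 hE0, setLIntegral_const]
    congr 1
    rw [mul_comm (ENNReal.ofReal b), ← mul_assoc, ENNReal.inv_mul_cancel hE0 hEt, one_mul]
  rw [h2] at h1
  have h3 : ∫⁻ y, G1 y * av E kk y
      ≤ ENNReal.ofReal (LL G F * √(al * (4 * Real.log (r / r2) + 5))) := by
    have e1 : ∫⁻ y, G1 y * av E kk y = ∫⁻ y in F, G y * av E kk y := by
      rw [← lintegral_indicator mF]
      apply lintegral_congr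
      intro y
      by_cases hy : y ∈ F
      · rw [hG1, indicator_of_mem hy, indicator_of_mem hy]
      · rw [hG1, indicator_of_notMem hy, indicator_of_notMem hy, zero_mul]
    rw [e1]
    apply le_ofReal_of_sq_le (by positivity)
    refine (cs_lintegral hG.aemeasurable mav.aemeasurable).trans ?_
    calc (∫⁻ y in F, G y ^ 2) * ∫⁻ y in F, av E kk y ^ 2
        ≤ ENNReal.ofReal (LL G F ^ 2) * ENNReal.ofReal (al * (4 * Real.log (r / r2) + 5)) := by
          rw [LL_sq hG2]
          gcongr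
          exact avsq_F hr2 hr2r hE hF.le
      _ = _ := by
          rw [← ENNReal.ofReal_mul (sq_nonneg _), mul_pow, Real.sq_sqrt (by positivity)]
  have h4 : ENNReal.ofReal lam ≤ ENNReal.ofReal (LL G F * √(al * (4 * Real.log (r / r2) + 5)) + b) := by
    rw [ENNReal.ofReal_add (by positivity) hb0]
    exact h1.trans (by gcongr)
  rw [ENNReal.ofReal_le_ofReal_iff (by positivity)] at h4
  have h5 : √(al * (4 * Real.log (r / r2) + 5)) ≤ √al * √(4 * Real.log (r / r2) + 14) := by
    rw [Real.sqrt_mul hal.le]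
    gcongr
    norm_num
  have h6 : √(al * (4 * Real.log (1 / r) + 11)) ≤ √al * √(4 * Real.log (1 / r) + 14) := by
    rw [Real.sqrt_mul hal.le]
    gcongr
    norm_num
  have h7 : √al * LL G F ≤ √al * (14 * LL G F) := by
    gcongr
    linarith
  calc lam ≤ LL G F * √(al * (4 * Real.log (r / r2) + 5)) + b := h4
    _ ≤ LL G F * (√al * √(4 * Real.log (r / r2) + 14))
        + (√al * (14 * LL G F) + √al * √(4 * Real.log (1 / r) + 14)) := by
        rw [hb]
        gcongr
    _ = _ := by ring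

end

end Pool.Agent.Lib.MP_65cb00_an
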