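import Mathlib
import Pool.Agent.Lib.MP_65cb00_an.Pair
import Pool.Agent.Lib.MP_65cb00_an.Numeric
import Pool.Agent.Lib.MP_65cb00_an.Count

/-!
# The sum over levels
-/

set_option autoImplicit false

namespace Pool.Agent.Lib.MP_65cb00_an

open MeasureTheory Set ENNReal Measure Filter Topology

/-- radius of the ball with given volume -/
noncomputable def rad (m : ℝ≥0∞) : ℝ := √√(2 / Real.pi ^ 2 * m.toReal)

lemma rad_pow {m : ℝ≥0∞} (hm : m ≠ ∞) : m = ENNReal.ofReal (Real.pi ^ 2 / 2 * rad m ^ 4) := by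
  have hpi := Real.pi_pos
  unfold rad
  have h : (√√(2 / Real.pi ^ 2 * m.toReal)) ^ 4 = 2 / Real.pi ^ 2 * m.toReal := by
    rw [show (4 : ℕ) = 2 * 2 by norm_num, pow_mul, Real.sq_sqrt (Real.sqrt_nonneg _),
      Real.sq_sqrt (by positivity)]
  rw [h, ← mul_assoc]
  have : Real.pi ^ 2 / 2 * (2 / Real.pi ^ 2) = 1 := by field_simp
  rw [this, one_mul, ENNReal.ofReal_toReal hm]

lemma rad_pos {m : ℝ≥0∞} (hm : m ≠ ∞) (hm0 : m ≠ 0) : 0 < rad m := by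
  have hpi := Real.pi_pos
  unfold rad
  have : 0 < m.toReal := ENNReal.toReal_pos hm0 hm
  positivity

lemma rad_mono {m m' : ℝ≥0∞} (hm' : m' ≠ ∞) (h : m ≤ m') : rad m ≤ rad m' := by
  unfold rad
  have := ENNReal.toReal_mono hm' h
  gcongr

lemma rad_le_one {m : ℝ≥0∞} (h : m ≤ ENNReal.ofReal (Real.pi ^ 2 / 2)) : rad m ≤ 1 := by
  have hpi := Real.pi_pos
  have h1 : m.toReal ≤ Real.pi ^ 2 / 2 := ENNReal.toReal_le_of_le_ofReal (by positivity) h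
  unfold rad
  rw [Real.sqrt_le_one, Real.sqrt_le_one]
  calc 2 / Real.pi ^ 2 * m.toReal ≤ 2 / Real.pi ^ 2 * (Real.pi ^ 2 / 2) := by gcongr
    _ = 1 := by field_simp

/-- the quantity `4 log(1/r)` -/
noncomputable def ell (m : ℝ≥0∞) : ℝ := 4 * Real.log (1 / rad m)

lemma exp_neg_ell {m : ℝ≥0∞} (hm : m ≠ ∞) (hm0 : m ≠ 0) : Real.exp (-ell m) = rad m ^ 4 := by
  have h := rad_pos hm hm0
  unfold ell
  rw [one_div, Real.log_inv]
  have : -(4 * -Real.log (rad m)) = ((4 : ℕ) : ℝ) * Real.log (rad m) := by push_cast; ring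
  rw [this, Real.exp_nat_mul, Real.exp_log h]

lemma ell_nonneg {m : ℝ≥0∞} (hm0 : m ≠ 0) (h : m ≤ ENNReal.ofReal (Real.pi ^ 2 / 2)) :
    0 ≤ ell m := by
  have hm : m ≠ ∞ := ne_top_of_le_ne_top ENNReal.ofReal_ne_top h
  have h1 := rad_pos hm hm0
  have h2 := rad_le_one h
  unfold ell
  have : 0 ≤ Real.log (1 / rad m) := Real.log_nonneg (by rw [le_div_iff₀ h1]; linarith)
  positivity

lemma log_ratio {m m' : ℝ≥0∞} (hm : m ≠ ∞) (hm0 : m ≠ 0) (hm' : m' ≠ ∞) (hm0' : m' ≠ 0) :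
    4 * Real.log (rad m / rad m') = ell m' - ell m := by
  have h1 := rad_pos hm hm0
  have h2 := rad_pos hm' hm0'
  unfold ell
  rw [Real.log_div h1.ne' h2.ne', one_div, one_div, Real.log_inv, Real.log_inv]
  ring

section

variable {G : E4 → ℝ≥0∞} (hG : Measurable G) (hG2 : ∫⁻ y, G y ^ 2 ≤ 1)

include hG hG2

lemma level_one {E : Set E4} (mE : MeasurableSet E) (hE0 : volume E ≠ 0)
    (hE1 : volume E ≤ ENNReal.ofReal (Real.pi ^ 2 / 2)) {n : ℕ}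
    (h : ∀ x ∈ E, ENNReal.ofReal √(n * al) ≤ pot G x) :
    ∃ (F : Set E4) (γ : ℝ≥0∞), MeasurableSet F ∧ volume F = volume E ∧ γ ≠ ∞ ∧
      (∀ y ∈ F, γ ≤ G y) ∧ (∀ y ∉ F, G y ≤ γ) ∧
      √(n : ℝ) ≤ √(ell (volume E) + 14) * √(1 - LL G F ^ 2) + 14 * LL G F := by
  have hEt : volume E ≠ ∞ := ne_top_of_le_ne_top ENNReal.ofReal_ne_top hE1
  obtain ⟨F, γ, mF, hF, hγ, hγ1, hγ2⟩ := split hG hG2 hE0 hEt
  refine ⟨F, γ, mF, hF, hγ, hγ1, hγ2, ?_⟩
  have h1 := ineq_one hG hG2 mF (rad_pos hEt hE0) (rad_le_one hE1) (hF.trans (rad_pow hEt)) mE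
    (rad_pow hEt) (Real.sqrt_nonneg _) h
  rw [mul_comm (n : ℝ), Real.sqrt_mul al_pos.le] at h1
  exact le_of_mul_le_mul_left h1 (Real.sqrt_pos.mpr al_pos)

lemma level_two {E E' : Set E4} (mE' : MeasurableSet E') (hE0 : volume E ≠ 0)
    (hE1 : volume E ≤ ENNReal.ofReal (Real.pi ^ 2 / 2)) (hE0' : volume E' ≠ 0)
    (hEE : volume E' ≤ volume E)
    {F : Set E4} {γ : ℝ≥0∞} (mF : MeasurableSet F) (hF : volume F = volume E) (hγ : γ ≠ ∞)
    (hγ1 : ∀ y ∈ F, γ ≤ G y) (hγ2 : ∀ y ∉ F, G y ≤ γ) {n : ℕ}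
    (h : ∀ x ∈ E', ENNReal.ofReal √(n * al) ≤ pot G x) :
    √(n : ℝ) ≤ √(ell (volume E) + 14) + 14 * LL G F
      + LL G F * √(ell (volume E') - ell (volume E) + 14) := by
  have hEt : volume E ≠ ∞ := ne_top_of_le_ne_top ENNReal.ofReal_ne_top hE1
  have hEt' : volume E' ≠ ∞ := ne_top_of_le_ne_top hEt hEE
  have h1 := ineq_two hG hG2 mF (rad_pos hEt hE0) (rad_le_one hE1) (hF.trans (rad_pow hEt))
    hγ hγ1 hγ2 mE' (rad_pos hEt' hE0') (rad_mono hEt hEE) (rad_pow hEt') (Real.sqrt_nonneg _) h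
  rw [mul_comm (n : ℝ), Real.sqrt_mul al_pos.le, log_ratio hEt hE0 hEt' hE0'] at h1
  exact le_of_mul_le_mul_left h1 (Real.sqrt_pos.mpr al_pos)

/-- the bound for the sum over finitely many levels -/
lemma levels_sum {E : ℕ → Set E4} (mE : ∀ n, MeasurableSet (E n))
    (hanti : ∀ n m, n ≤ m → E m ⊆ E n)
    (h : ∀ n, ∀ x ∈ E n, ENNReal.ofReal √(n * al) ≤ pot G x)
    {S : Finset ℕ} (hS : ∀ n ∈ S, volume (E n) ≤ ENNReal.ofReal (Real.pi ^ 2 / 2)) :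
    ∑ n ∈ S, ENNReal.ofReal (Real.exp n) * volume (E n)
      ≤ ENNReal.ofReal (Real.pi ^ 2 / 2
        * (Real.exp (14 + 2 * 14 ^ 2) * (2 * KK 14 + 2) * expSeries)) := by
  classical
  have hpi := Real.pi_pos
  -- reduce to levels of positive measure
  set S' := S.filter fun n => volume (E n) ≠ 0 with hS'
  have hS1 : ∀ n ∈ S', volume (E n) ≤ ENNReal.ofReal (Real.pi ^ 2 / 2) := fun n hn =>
    hS n (Finset.mem_filter.mp hn).1
  have hS0 : ∀ n ∈ S', volume (E n) ≠ 0 := fun n hn => (Finset.mem_filter.mp hn).2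
  have hSt : ∀ n ∈ S', volume (E n) ≠ ∞ := fun n hn =>
    ne_top_of_le_ne_top ENNReal.ofReal_ne_top (hS1 n hn)
  have e1 : ∑ n ∈ S, ENNReal.ofReal (Real.exp n) * volume (E n)
      = ∑ n ∈ S', ENNReal.ofReal (Real.exp n) * volume (E n) := by
    rw [hS', Finset.sum_filter]
    apply Finset.sum_congr rfl
    intro n _
    by_cases h0 : volume (E n) = 0
    · simp [h0]
    · simp [h0]
  set τ : ℕ → ℝ := fun n => ell (volume (E n)) - n with hτ
  have e2 : ∀ n ∈ S', ENNReal.ofReal (Real.exp n) * volume (E n)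
      = ENNReal.ofReal (Real.pi ^ 2 / 2 * Real.exp (-τ n)) := by
    intro n hn
    have h1 := exp_neg_ell (hSt n hn) (hS0 n hn)
    have h2 : Real.exp (-τ n) = Real.exp n * rad (volume (E n)) ^ 4 := by
      rw [← h1, ← Real.exp_add]
      congr 1
      simp only [hτ]
      ring
    rw [h2]
    conv_lhs => rw [rad_pow (hSt n hn)]
    rw [← ENNReal.ofReal_mul (Real.exp_pos _).le]
    congr 1
    ring
  rw [e1, Finset.sum_congr rfl e2, ← ENNReal.ofReal_sum_of_nonneg (fun n _ => by positivity),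
    ← Finset.mul_sum]
  apply ENNReal.ofReal_le_ofReal
  apply mul_le_mul_of_nonneg_left _ (by positivity)
  have hKK : 0 ≤ KK 14 := by unfold KK; norm_num
  -- basic data of a pair of levels
  have hpair : ∀ n1 ∈ S', ∀ n2 ∈ S', n1 ≤ n2 → ∀ t : ℝ, τ n1 ≤ t → τ n2 ≤ t →
      1 ≤ t + 14 + 2 * 14 ^ 2 + 1 ∧ ((n1 : ℝ) ≤ KK 14 * (t + 14 + 2 * 14 ^ 2 + 1) ∨
        (n2 : ℝ) - n1 ≤ KK 14 * (t + 14 + 2 * 14 ^ 2 + 1)) := by
    intro n1 hn1 n2 hn2 h12 t ht1 ht2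
    obtain ⟨F, γ, mF, hF, hγ, hγ1, hγ2, hI⟩ := level_one hG hG2 (mE n1) (hS0 n1 hn1) (hS1 n1 hn1)
      (h n1)
    have hvol : volume (E n2) ≤ volume (E n1) := measure_mono (hanti n1 n2 h12)
    have hII := level_two hG hG2 (mE n2) (hS0 n1 hn1) (hS1 n1 hn1) (hS0 n2 hn2) hvol mF hF hγ
      hγ1 hγ2 (h n2)
    have hℓ : ell (volume (E n1)) ≤ ell (volume (E n2)) := by
      have h3 := log_ratio (hSt n1 hn1) (hS0 n1 hn1) (hSt n2 hn2) (hS0 n2 hn2)
      have h4 : 0 ≤ Real.log (rad (volume (E n1)) / rad (volume (E n2))) := by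
        apply Real.log_nonneg
        rw [le_div_iff₀ (rad_pos (hSt n2 hn2) (hS0 n2 hn2)), one_mul]
        exact rad_mono (hSt n1 hn1) hvol
      linarith
    exact numeric (by norm_num) (Nat.cast_nonneg n1) (Nat.cast_nonneg n2)
      (ell_nonneg (hS0 n1 hn1) (hS1 n1 hn1)) hℓ (LL_nonneg G F) (LL_sq_le hG2) hI hII ht1 ht2
  apply sum_exp_le (by linarith)
  · intro n hn
    have := (hpair n hn n hn le_rfl (τ n) le_rfl le_rfl).1
    linarith
  · intro t ht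
    have hW : 0 ≤ KK 14 * (t + 14 + 2 * 14 ^ 2 + 1) := by
      apply mul_nonneg hKK
      linarith
    have hc := count_le (S := S'.filter fun n => τ n ≤ t) hW (by
      intro n1 hn1 n2 hn2 h12
      rw [Finset.mem_filter] at hn1 hn2
      exact (hpair n1 hn1.1 n2 hn2.1 h12.le t hn1.2 hn2.2).2)
    refine hc.trans ?_
    have : 1 ≤ t + (14 + 2 * 14 ^ 2) + 1 := by linarith
    nlinarith

end

end Pool.Agent.Lib.MP_65cb00_an
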