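import Mathlib
import Pool.Agent.Lib.MP_65cb00_an.Levels

/-!
# Final assembly
-/

set_option autoImplicit false

namespace Pool.Agent.Lib.MP_65cb00_an

open MeasureTheory Set ENNReal Measure Filter Topology

/-- the level sets -/
def Elev (u : E4 → ℝ) (n : ℕ) : Set E4 := {x | (n : ℝ) < 32 * Real.pi ^ 2 * u x ^ 2}

lemma measurableSet_Elev {u : E4 → ℝ} (hu : Continuous u) (n : ℕ) : MeasurableSet (Elev u n) :=
  (isOpen_lt continuous_const (by fun_prop)).measurableSet

lemma Elev_anti (u : E4 → ℝ) (n m : ℕ) (h : n ≤ m) : Elev u m ⊆ Elev u n := by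
  intro x hx
  have h1 : (m : ℝ) < 32 * Real.pi ^ 2 * u x ^ 2 := hx
  have h2 : (n : ℝ) ≤ m := by exact_mod_cast h
  exact lt_of_le_of_lt h2 h1

lemma abs_of_mem_Elev {u : E4 → ℝ} {n : ℕ} {x : E4} (hx : x ∈ Elev u n) : √(n * al) ≤ |u x| := by
  have hpi := Real.pi_pos
  have h1 : (n : ℝ) < 32 * Real.pi ^ 2 * u x ^ 2 := hx
  rw [Real.sqrt_le_left (abs_nonneg _), sq_abs]
  unfold al
  rw [mul_one_div, div_le_iff₀ (by positivity)]
  linarith

lemma lintegral_GG_sq {u : E4 → ℝ} (hu : ContDiff ℝ 2 u) (huc : HasCompactSupport u)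
    (h : (∫ x, lap u x ^ 2) + (∫ x, ‖fderiv ℝ u x‖ ^ 2) ≤ 1) :
    ∫⁻ y, GG u y ^ 2 ≤ 1 := by
  have hfc : HasCompactSupport (fderiv ℝ u) := huc.fderiv ℝ
  have hffc : HasCompactSupport (fderiv ℝ (fderiv ℝ u)) := hfc.fderiv ℝ
  have h1 : Integrable fun x => lap u x ^ 2 := by
    apply Continuous.integrable_of_hasCompactSupport ((continuous_lap hu).pow 2)
    apply hffc.mono'
    intro x hx
    apply subset_tsupport
    intro h0
    apply hx
    show lap u x ^ 2 = 0
    unfold lap
    rw [h0]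
    simp
  have h2 : Integrable fun x => ‖fderiv ℝ u x‖ ^ 2 := by
    apply Continuous.integrable_of_hasCompactSupport
      ((hu.continuous_fderiv (by norm_num)).norm.pow 2)
    apply hfc.mono'
    intro x hx
    apply subset_tsupport
    intro h0
    apply hx
    simp [h0]
  have h3 : ∫⁻ y, GG u y ^ 2 = ENNReal.ofReal (∫ x, (lap u x ^ 2 + ‖fderiv ℝ u x‖ ^ 2)) := by
    rw [ofReal_integral_eq_lintegral_ofReal (f := fun x => lap u x ^ 2 + ‖fderiv ℝ u x‖ ^ 2)
      (h1.add h2) (Eventually.of_forall fun x => by positivity)]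
    apply lintegral_congr
    intro y
    unfold GG
    rw [← ENNReal.ofReal_pow (Real.sqrt_nonneg _), Real.sq_sqrt (by positivity)]
  rw [h3, integral_add h1 h2]
  calc ENNReal.ofReal _ ≤ ENNReal.ofReal 1 := ENNReal.ofReal_le_ofReal h
    _ = 1 := ENNReal.ofReal_one

/-- Sobolev's inequality in the form used here -/
lemma sobolev4 : ∃ K : ℝ, 0 < K ∧ ∀ u : E4 → ℝ, ContDiff ℝ 2 u → HasCompactSupport u →
    (∫⁻ x, ENNReal.ofReal (‖fderiv ℝ u x‖ ^ 2)) ≤ 1 →
    ∫⁻ x, ENNReal.ofReal (u x ^ 4) ≤ ENNReal.ofReal K := by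
  set c : ℝ≥0∞ := (SNormLESNormFDerivOfEqConst ℝ (volume : Measure E4) 2 : ℝ≥0∞) with hc
  have hct : c ≠ ∞ := ENNReal.coe_ne_top
  refine ⟨(c ^ 4).toReal + 1, by positivity, fun u hu huc h => ?_⟩
  have h1 := eLpNorm_le_eLpNorm_fderiv_of_eq (volume : Measure E4) (hu.of_le (by norm_num)) huc
    (p := 2) (p' := 4) (by norm_num) (by simp) (by simp; norm_num)
  have h2 : eLpNorm (fderiv ℝ u) 2 volume ≤ 1 := by
    rw [eLpNorm_eq_lintegral_rpow_enorm_toReal (by norm_num) (by norm_num)]
    have : ∫⁻ x, ‖fderiv ℝ u x‖ₑ ^ (2 : ℝ≥0∞).toReal ≤ 1 := by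
      refine le_trans (le_of_eq ?_) h
      apply lintegral_congr
      intro x
      rw [ENNReal.ofReal_pow (norm_nonneg _), ofReal_norm]
      simp
    exact ENNReal.rpow_le_one this (by positivity)
  have h3 : eLpNorm u 4 volume ≤ c := by
    calc eLpNorm u 4 volume ≤ c * eLpNorm (fderiv ℝ u) 2 volume := h1
      _ ≤ c * 1 := by gcongr
      _ = c := mul_one c
  have h4 : ∫⁻ x, ENNReal.ofReal (u x ^ 4) = eLpNorm u 4 volume ^ 4 := by
    rw [eLpNorm_eq_lintegral_rpow_enorm_toReal (by norm_num) (by norm_num)]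
    rw [← ENNReal.rpow_natCast, ← ENNReal.rpow_mul]
    simp only [ENNReal.toReal_ofNat, Nat.cast_ofNat]
    norm_num
    apply lintegral_congr
    intro x
    rw [← ofReal_norm, ← ENNReal.ofReal_pow (norm_nonneg _), Real.norm_eq_abs]
    congr 1
    rw [show (4 : ℕ) = 2 * 2 by norm_num, pow_mul, pow_mul, sq_abs]
  rw [h4]
  calc eLpNorm u 4 volume ^ 4 ≤ c ^ 4 := by gcongr
    _ = ENNReal.ofReal (c ^ 4).toReal := (ENNReal.ofReal_toReal (by finiteness)).symm
    _ ≤ _ := ENNReal.ofReal_le_ofReal (by linarith)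

/-- pointwise decomposition of the integrand -/
lemma pointwise (N : ℕ) {s : ℝ} (hs : 0 ≤ s) :
    ENNReal.ofReal (Real.exp s - 1 - s) ≤ ENNReal.ofReal (Real.exp N * s ^ 2)
      + ∑' n : ℕ, (if N ≤ n ∧ (n : ℝ) < s then ENNReal.ofReal (Real.exp 1 * Real.exp n) else 0) := by
  by_cases h : s ≤ N
  · refine le_trans ?_ le_self_add
    apply ENNReal.ofReal_le_ofReal
    have h1 : Real.exp s - 1 ≤ s * Real.exp s := by
      have h2 := Real.add_one_le_exp (-s)
      have h3 : Real.exp s * Real.exp (-s) = 1 := by rw [← Real.exp_add]; simp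
      have h4 : Real.exp s * (-s + 1) ≤ Real.exp s * Real.exp (-s) :=
        mul_le_mul_of_nonneg_left h2 (Real.exp_pos s).le
      rw [h3] at h4
      linarith
    have h5 : s * (Real.exp s - 1) ≤ s * (s * Real.exp s) := mul_le_mul_of_nonneg_left h1 hs
    have h6 : Real.exp s ≤ Real.exp N := Real.exp_le_exp.mpr h
    have h7 : s ^ 2 * Real.exp s ≤ s ^ 2 * Real.exp N := mul_le_mul_of_nonneg_left h6 (sq_nonneg s)
    linarith
  · push Not at h
    refine le_trans ?_ le_add_self
    set n := ⌈s⌉₊ - 1 with hn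
    have hs0 : 0 < s := lt_of_le_of_lt (Nat.cast_nonneg N) h
    have hc1 : 0 < ⌈s⌉₊ := Nat.ceil_pos.mpr hs0
    have hc2 : N < ⌈s⌉₊ := by
      have := Nat.le_ceil s
      exact_mod_cast lt_of_lt_of_le h this
    have hn1 : n + 1 = ⌈s⌉₊ := by omega
    have hnN : N ≤ n := by omega
    have hns : (n : ℝ) < s := by
      have := Nat.ceil_lt_add_one hs
      rw [← hn1] at this
      push_cast at this
      linarith
    have hsn : s ≤ n + 1 := by
      have := Nat.le_ceil s
      rw [← hn1] at this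
      push_cast at this
      exact this
    refine le_trans ?_ (ENNReal.le_tsum n)
    rw [if_pos ⟨hnN, hns⟩]
    apply ENNReal.ofReal_le_ofReal
    rw [← Real.exp_add]
    have : Real.exp s ≤ Real.exp (1 + n) := Real.exp_le_exp.mpr (by linarith)
    linarith

/-- **Main theorem**: uniform bound for the exponential integral. -/
theorem main_bound : ∃ C : ℝ, ∀ u : E4 → ℝ, ContDiff ℝ 2 u → HasCompactSupport u →
    (∫ x, lap u x ^ 2) + (∫ x, ‖fderiv ℝ u x‖ ^ 2) ≤ 1 →
    (∫⁻ x, ENNReal.ofReal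
      (Real.exp (32 * Real.pi ^ 2 * u x ^ 2) - 1 - 32 * Real.pi ^ 2 * u x ^ 2))
      ≤ ENNReal.ofReal C := by
  have hpi := Real.pi_pos
  have hal := al_pos
  obtain ⟨K, hK, hsob⟩ := sobolev4
  obtain ⟨N, hN⟩ := exists_nat_gt (K / (al ^ 2 * (Real.pi ^ 2 / 2)) + 1)
  set K1 : ℝ := Real.pi ^ 2 / 2 * (Real.exp (14 + 2 * 14 ^ 2) * (2 * KK 14 + 2) * expSeries)
  refine ⟨Real.exp N * (32 * Real.pi ^ 2) ^ 2 * K + |Real.exp 1 * K1|, fun u hu huc h => ?_⟩
  have hGG := lintegral_GG_sq hu huc h
  have mG := measurable_GG hu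
  have hcont : Continuous u := hu.continuous
  -- Sobolev
  have hs : ∫⁻ x, ENNReal.ofReal (u x ^ 4) ≤ ENNReal.ofReal K := by
    apply hsob u hu huc
    refine le_trans ?_ hGG
    apply lintegral_mono
    intro y
    unfold GG
    simp only
    rw [← ENNReal.ofReal_pow (Real.sqrt_nonneg _), Real.sq_sqrt (by positivity)]
    apply ENNReal.ofReal_le_ofReal
    have := sq_nonneg (lap u y)
    linarith
  -- volume of the level sets
  have hvol : ∀ n : ℕ, N ≤ n → volume (Elev u n) ≤ ENNReal.ofReal (Real.pi ^ 2 / 2) := by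
    intro n hn
    have hN1 : (1 : ℝ) ≤ N := by
      have : 0 ≤ K / (al ^ 2 * (Real.pi ^ 2 / 2)) := by positivity
      linarith
    have hn1 : (N : ℝ) ≤ n := by exact_mod_cast hn
    have h1 : ENNReal.ofReal ((n * al) ^ 2) * volume (Elev u n) ≤ ENNReal.ofReal K := by
      calc ENNReal.ofReal ((n * al) ^ 2) * volume (Elev u n)
          = ∫⁻ _ in Elev u n, ENNReal.ofReal ((n * al) ^ 2) := by rw [setLIntegral_const]
        _ ≤ ∫⁻ x in Elev u n, ENNReal.ofReal (u x ^ 4) := by
            apply setLIntegral_mono (by fun_prop)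
            intro x hx
            apply ENNReal.ofReal_le_ofReal
            have h2 := abs_of_mem_Elev hx
            rw [Real.sqrt_le_left (abs_nonneg _), sq_abs] at h2
            calc (n * al) ^ 2 ≤ (u x ^ 2) ^ 2 := by gcongr
              _ = u x ^ 4 := by ring
        _ ≤ ∫⁻ x, ENNReal.ofReal (u x ^ 4) := setLIntegral_le_lintegral _ _
        _ ≤ _ := hs
    have h3 : K ≤ (n * al) ^ 2 * (Real.pi ^ 2 / 2) := by
      have h4 : K / (al ^ 2 * (Real.pi ^ 2 / 2)) ≤ N := by linarith
      rw [div_le_iff₀ (by positivity)] at h4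
      have h5 : (N : ℝ) ≤ n ^ 2 := by nlinarith
      calc K ≤ N * (al ^ 2 * (Real.pi ^ 2 / 2)) := h4
        _ ≤ n ^ 2 * (al ^ 2 * (Real.pi ^ 2 / 2)) := by gcongr
        _ = _ := by ring
    have h6 : 0 < (n * al) ^ 2 := by
      have : 0 < (n : ℝ) := by linarith
      positivity
    have h7 : ENNReal.ofReal ((n * al) ^ 2) * volume (Elev u n)
        ≤ ENNReal.ofReal ((n * al) ^ 2) * ENNReal.ofReal (Real.pi ^ 2 / 2) := by
      rw [← ENNReal.ofReal_mul h6.le]
      exact h1.trans (ENNReal.ofReal_le_ofReal h3)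
    rwa [ENNReal.mul_le_mul_iff_right (ENNReal.ofReal_pos.mpr h6).ne' ENNReal.ofReal_ne_top] at h7
  -- potential bound on the levels
  have hlev : ∀ n, ∀ x ∈ Elev u n, ENNReal.ofReal √(n * al) ≤ pot (GG u) x := by
    intro n x hx
    exact (ENNReal.ofReal_le_ofReal (abs_of_mem_Elev hx)).trans (repr hu huc x)
  have hsum : ∑' n : ℕ, (if N ≤ n then ENNReal.ofReal (Real.exp n) * volume (Elev u n) else 0)
      ≤ ENNReal.ofReal K1 := by
    rw [ENNReal.tsum_eq_iSup_sum]
    apply iSup_le
    intro S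
    rw [← Finset.sum_filter]
    apply levels_sum mG hGG (measurableSet_Elev hcont) (Elev_anti u) hlev
    intro n hn
    exact hvol n (Finset.mem_filter.mp hn).2
  -- integrate the pointwise decomposition
  have hmeas : ∀ n : ℕ, Measurable fun x => (if N ≤ n ∧ (n : ℝ) < 32 * Real.pi ^ 2 * u x ^ 2 then
      ENNReal.ofReal (Real.exp 1 * Real.exp n) else 0) := by
    intro n
    by_cases hn : N ≤ n
    · simp only [hn, true_and]
      exact Measurable.ite (measurableSet_Elev hcont n) measurable_const measurable_const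
    · simp only [hn, false_and, if_false]
      exact measurable_const
  calc (∫⁻ x, ENNReal.ofReal
      (Real.exp (32 * Real.pi ^ 2 * u x ^ 2) - 1 - 32 * Real.pi ^ 2 * u x ^ 2))
      ≤ ∫⁻ x, (ENNReal.ofReal (Real.exp N * (32 * Real.pi ^ 2 * u x ^ 2) ^ 2)
        + ∑' n : ℕ, (if N ≤ n ∧ (n : ℝ) < 32 * Real.pi ^ 2 * u x ^ 2 then
          ENNReal.ofReal (Real.exp 1 * Real.exp n) else 0)) := by
        apply lintegral_mono
        intro x
        exact pointwise N (by positivity)
    _ = (∫⁻ x, ENNReal.ofReal (Real.exp N * (32 * Real.pi ^ 2 * u x ^ 2) ^ 2))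
        + ∑' n : ℕ, ∫⁻ x, (if N ≤ n ∧ (n : ℝ) < 32 * Real.pi ^ 2 * u x ^ 2 then
          ENNReal.ofReal (Real.exp 1 * Real.exp n) else 0) := by
        rw [lintegral_add_left (by fun_prop), lintegral_tsum fun n => (hmeas n).aemeasurable]
    _ ≤ ENNReal.ofReal (Real.exp N * (32 * Real.pi ^ 2) ^ 2 * K)
        + ENNReal.ofReal (Real.exp 1 * K1) := by
        apply add_le_add
        · have e1 : ∀ x, ENNReal.ofReal (Real.exp N * (32 * Real.pi ^ 2 * u x ^ 2) ^ 2)
              = ENNReal.ofReal (Real.exp N * (32 * Real.pi ^ 2) ^ 2) * ENNReal.ofReal (u x ^ 4) := by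
            intro x
            rw [← ENNReal.ofReal_mul (by positivity)]
            congr 1
            ring
          simp_rw [e1]
          rw [lintegral_const_mul' _ _ ENNReal.ofReal_ne_top,
            ENNReal.ofReal_mul (p := Real.exp N * (32 * Real.pi ^ 2) ^ 2) (by positivity)]
          exact mul_le_mul_right hs _
        · have e2 : ∀ n : ℕ, ∫⁻ x, (if N ≤ n ∧ (n : ℝ) < 32 * Real.pi ^ 2 * u x ^ 2 then
              ENNReal.ofReal (Real.exp 1 * Real.exp n) else 0)
              = ENNReal.ofReal (Real.exp 1)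
                * (if N ≤ n then ENNReal.ofReal (Real.exp n) * volume (Elev u n) else 0) := by
            intro n
            by_cases hn : N ≤ n
            · simp only [hn, true_and, if_true]
              have e3 : (fun x => if (n : ℝ) < 32 * Real.pi ^ 2 * u x ^ 2 then
                  ENNReal.ofReal (Real.exp 1 * Real.exp n) else 0)
                  = (Elev u n).indicator fun _ => ENNReal.ofReal (Real.exp 1 * Real.exp n) := by
                funext x
                by_cases hx : x ∈ Elev u n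
                · rw [indicator_of_mem hx]
                  exact if_pos hx
                · rw [indicator_of_notMem hx]
                  exact if_neg hx
              rw [e3, lintegral_indicator (measurableSet_Elev hcont n), setLIntegral_const,
                ENNReal.ofReal_mul (Real.exp_pos 1).le, mul_assoc]
            · simp only [hn, false_and, if_false, lintegral_zero, mul_zero]
          simp_rw [e2]
          rw [ENNReal.tsum_mul_left, ENNReal.ofReal_mul (Real.exp_pos 1).le]
          gcongr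
    _ ≤ ENNReal.ofReal (Real.exp N * (32 * Real.pi ^ 2) ^ 2 * K)
        + ENNReal.ofReal |Real.exp 1 * K1| := by
        gcongr
        exact le_abs_self _
    _ = _ := (ENNReal.ofReal_add (by positivity) (abs_nonneg _)).symm

end Pool.Agent.Lib.MP_65cb00_an
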